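import Pool.Agent.K1H69.CM.Gen

/-!
# Assembly
-/

set_option autoImplicit false

universe u

namespace Pool.Agent.K1H69.CM

open Ordinal ZFSet

/-- `U ∈ C²(ω)` is in `C²(ω)` a filter on `ω₁^V` which contains only unbounded sets and is `ω₁^V`-complete, and it is
closed under arbitrary countable intersections (of sequences in `V`) which are in `C²(ω)` -/
structure IsFilter (U : ZFSet.{u}) : Prop where
  mem : U ∈ (C2 : Set ZFSet.{u})
  sub : ∀ X ∈ U, X ⊆ Om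
  top : (Om : ZFSet.{u}) ∈ U
  up : ∀ X ∈ U, ∀ Y ∈ (C2 : Set ZFSet.{u}), X ⊆ Y → Y ⊆ Om → Y ∈ U
  unbounded : ∀ X ∈ U, ∀ δ ∈ (Om : ZFSet.{u}), ∃ β ∈ X, δ ∈ β
  complete : ∀ A ∈ (C2 : Set ZFSet.{u}), A ⊆ U → A.Nonempty →
    (∃ γ ∈ (Om : ZFSet.{u}), ∃ h ∈ (C2 : Set ZFSet.{u}), (∀ a ∈ A, ∃ i ∈ γ, ZFSet.pair i a ∈ h) ∧
      ∀ i a b : ZFSet.{u}, ZFSet.pair i a ∈ h → ZFSet.pair i b ∈ h → a = b) → ⋂₀ A ∈ U
  countable : ∀ X : ℕ → ZFSet.{u}, (∀ i, X i ∈ U) → ∀ Z ∈ (C2 : Set ZFSet.{u}), Z ⊆ Om →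
    (∀ β ∈ (Om : ZFSet.{u}), (∀ i, β ∈ X i) → β ∈ Z) → Z ∈ U

/-- the class `C²(ω)` is closed under differences and intersections -/
theorem C2_diff (hL : S_LEV.{u}) {X Y : ZFSet.{u}} (hX : X ∈ (C2 : Set ZFSet.{u})) (hY : Y ∈ (C2 : Set ZFSet.{u})) :
    X \ Y ∈ (C2 : Set ZFSet.{u}) := by
  obtain ⟨μ, hμ⟩ := hX
  obtain ⟨ν, hν⟩ := hY
  have h := hL.2.2.2.1 (max μ ν) (.diff (.var 0) (.var 1)) [X, Y] (by
    intro a ha
    simp only [List.mem_cons, List.not_mem_nil, or_false] at ha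
    rcases ha with rfl | rfl
    · exact hL.2.1 _ _ ((le_max_left μ ν).trans (le_add_right le_rfl)) hμ
    · exact hL.2.1 _ _ ((le_max_right μ ν).trans (le_add_right le_rfl)) hν)
  exact ⟨_, h⟩

theorem mem_eval_union (T : Set ZFSet.{u}) (s t : RTerm) (l : List ZFSet.{u}) (x : ZFSet.{u}) :
    x ∈ (RTerm.union s t).eval T l ↔ ∃ z ∈ s.eval T l, x ∈ t.eval T (z :: l) := by
  rw [RTerm.eval, mem_iUnion]
  constructor
  · rintro ⟨z, hz⟩
    exact ⟨z, z.2, hz⟩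
  · rintro ⟨z, hz, h⟩
    exact ⟨⟨z, hz⟩, h⟩

/-- intersections of nonempty families of subsets of `ω₁` -/
theorem C2_sInter (hL : S_LEV.{u}) {A : ZFSet.{u}} (hA : A ∈ (C2 : Set ZFSet.{u}))
    (hO : (Om : ZFSet.{u}) ∈ (C2 : Set ZFSet.{u}))
    (hs : ∀ X ∈ A, X ⊆ Om) (hne : A.Nonempty) : (⋂₀ A : ZFSet.{u}) ∈ (C2 : Set ZFSet.{u}) := by
  obtain ⟨μ, hμ⟩ := hA
  obtain ⟨ν, hν⟩ := hO
  have h := hL.2.2.2.1 (max μ ν)
    (.diff (.var 1) (.union (.var 0) (.diff (.var 2) (.var 0)))) [A, Om] (by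
    intro a ha
    simp only [List.mem_cons, List.not_mem_nil, or_false] at ha
    rcases ha with rfl | rfl
    · exact hL.2.1 _ _ ((le_max_left μ ν).trans (le_add_right le_rfl)) hμ
    · exact hL.2.1 _ _ ((le_max_right μ ν).trans (le_add_right le_rfl)) hν)
  refine ⟨max μ ν + 1, ?_⟩
  convert h using 1
  ext x
  rw [mem_sInter hne, RTerm.eval, mem_sdiff, mem_eval_union]
  simp only [RTerm.eval, mem_sdiff, List.getD_cons_zero, List.getD_cons_succ]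
  constructor
  · intro hx
    obtain ⟨X, hX⟩ := hne
    refine ⟨hs X hX (hx X hX), ?_⟩
    rintro ⟨z, hz, hz1, hz2⟩
    exact hz2 (hx z hz)
  · rintro ⟨hx1, hx2⟩ X hX
    by_contra hcon
    exact hx2 ⟨X, hX, hx1, hcon⟩

/-- **The measure.** -/
theorem main (hD : S_DEF.{u}) (hC : S_CONE.{u}) (hI : ∀ M : ZFSet.{u}, Base M → ∀ X : ZFSet.{u},
      InU M X ∨ InU M (Om \ X) →
      Determined (fun x y : ℕ → V_ (ω : Ordinal.{u}) => Out M (b2 (gr x)) (b2 (gr y)) X))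
    (hL : S_LEV.{u}) (hF : S_FILT.{u}) (hS : S_SUP.{u}) (hM : S_MEM.{u})
    (hOut : ∀ M : ZFSet.{u}, Base M → ∀ y : ℕ → V_ (ω : Ordinal.{u}), Out M (b2 (gr y)) (b2 (gr y)) Om) :
    ∃ (ν : Ordinal.{u}) (φ : Fml) (U : ZFSet.{u}), 0 < ν ∧ IsFilter U ∧
      (∀ X ∈ (C2 : Set ZFSet.{u}), X ⊆ Om → (∀ a ∈ [X, V_ (ω : Ordinal.{u}), om, Om], a ∈ J ν) ∧
        (Determined (Pay (J ν) (Tr ν) φ [X, V_ (ω : Ordinal.{u}), om, Om]) ↔ (X ∈ U ∨ Om \ X ∈ U))) ∧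
      (IsMeasure U ↔ ∀ X ∈ (C2 : Set ZFSet.{u}), X ⊆ Om →
        Determined (Pay (J ν) (Tr ν) φ [X, V_ (ω : Ordinal.{u}), om, Om])) := by
  obtain ⟨ν, hν, hB, hall⟩ := hS
  obtain ⟨U, hU, hUiff⟩ := hM ν hν hB
  obtain ⟨φ, hφ⟩ := (hD (J ν) (Tr ν) hB).2
  have hOC : (Om : ZFSet.{u}) ∈ (C2 : Set ZFSet.{u}) := ⟨ν, hB.Om⟩
  have hF1 := (hF (J ν) hB).1
  have hF2 := (hF (J ν) hB).2
  have hsub : ∀ X : ZFSet.{u}, InU (J ν) X → X ∈ J ν → X ⊆ Om := by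
    intro X hX hXJ β hβ
    exact hX.1 β (hB.tr.subset_of_mem hXJ hβ) hβ
  have hOm0 : (∅ : ZFSet.{u}) ∈ (Om : ZFSet.{u}) := by
    unfold Om
    rw [mem_toZFSet_iff]
    exact ⟨0, omega_pos 1, by simp⟩
  have hpar : ∀ X ∈ (C2 : Set ZFSet.{u}), X ⊆ Om → ∀ a ∈ [X, V_ (ω : Ordinal.{u}), om, Om], a ∈ J ν := by
    intro X hX hXs x hx
    simp only [List.mem_cons, List.not_mem_nil, or_false] at hx
    rcases hx with rfl | rfl | rfl | rfl
    · exact hall _ hX hXs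
    · exact hB.W
    · exact hB.om
    · exact hB.Om
  have hcompl : ∀ X ∈ (C2 : Set ZFSet.{u}), Om \ X ∈ (C2 : Set ZFSet.{u}) ∧ Om \ X ⊆ Om := by
    intro X hX
    exact ⟨C2_diff hL hOC hX, fun β hβ => (mem_sdiff.1 hβ).1⟩
  have hdet : ∀ X ∈ (C2 : Set ZFSet.{u}), X ⊆ Om →
      (Determined (Pay (J ν) (Tr ν) φ [X, V_ (ω : Ordinal.{u}), om, Om]) ↔ (X ∈ U ∨ Om \ X ∈ U)) := by
    intro X hX hXs
    have hXJ := hall X hX hXs
    have h1 : Pay (J ν) (Tr ν) φ [X, V_ (ω : Ordinal.{u}), om, Om] =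
        (fun x y : ℕ → V_ (ω : Ordinal.{u}) => Out (J ν) (b2 (gr x)) (b2 (gr y)) X) := by
      funext x y
      exact propext (hφ X hXJ (gr x) (gr y) (run_gr hB x).1 (run_gr hB y).1)
    rw [h1, hUiff, hUiff]
    have hXc : Om \ X ∈ J ν := hall _ (hcompl X hX).1 (hcompl X hX).2
    constructor
    · intro h
      rcases hC (J ν) hB X hXs h with h2 | h2
      · exact Or.inl ⟨hXJ, h2⟩
      · exact Or.inr ⟨hXc, h2⟩
    · intro h
      apply hI (J ν) hB X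
      rcases h with h2 | h2
      · exact Or.inl h2.2
      · exact Or.inr h2.2
  have hV : ∀ X : ℕ → ZFSet.{u}, (∀ i, X i ∈ U) → ∀ Z ∈ (C2 : Set ZFSet.{u}), Z ⊆ Om →
      (∀ β ∈ (Om : ZFSet.{u}), (∀ i, β ∈ X i) → β ∈ Z) → Z ∈ U := by
    intro X hX Z hZ hZs h
    rw [hUiff]
    exact ⟨hall Z hZ hZs, hF1 X Z (fun i => ((hUiff _).1 (hX i)).2) hZs h⟩
  have hunb : ∀ X ∈ U, ∀ δ ∈ (Om : ZFSet.{u}), ∃ β ∈ X, δ ∈ β := fun X hX => hF2 X ((hUiff X).1 hX).2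
  have hUs : ∀ X ∈ U, X ⊆ Om := by
    intro X hX
    obtain ⟨h1, h2⟩ := (hUiff X).1 hX
    exact hsub X h2 h1
  have hup : ∀ X ∈ U, ∀ Y ∈ (C2 : Set ZFSet.{u}), X ⊆ Y → Y ⊆ Om → Y ∈ U := by
    intro X hX Y hY hXY hYs
    exact hV (fun _ => X) (fun _ => hX) Y hY hYs (fun β _ h => hXY (h 0))
  have htop : (Om : ZFSet.{u}) ∈ U := by
    rw [hUiff]
    refine ⟨hB.Om, fun β _ hβ => hβ, ∅, ⟨Set.countable_empty, by simp⟩, by simp, ?_⟩
    intro Y hY hR _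
    obtain ⟨y, rfl⟩ := run_exists hB hY hR
    exact hOut (J ν) hB y
  have hcpl : ∀ A ∈ (C2 : Set ZFSet.{u}), A ⊆ U → A.Nonempty →
      (∃ γ ∈ (Om : ZFSet.{u}), ∃ h ∈ (C2 : Set ZFSet.{u}), (∀ a ∈ A, ∃ i ∈ γ, ZFSet.pair i a ∈ h) ∧
        ∀ i a b : ZFSet.{u}, ZFSet.pair i a ∈ h → ZFSet.pair i b ∈ h → a = b) → ⋂₀ A ∈ U := by
    rintro A hA hAU hne ⟨γ, hγ, h, -, h1, h2⟩
    have hAs : ∀ X ∈ A, X ⊆ Om := fun X hX => hUs X (hAU hX)
    have hIs : (⋂₀ A : ZFSet.{u}) ⊆ Om := by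
      obtain ⟨X, hX⟩ := hne
      intro β hβ
      exact hAs X hX (mem_of_mem_sInter hβ hX)
    have hIC := C2_sInter hL hA hOC hAs hne
    have hγc : (γ : Set ZFSet.{u}).Countable := by
      unfold Om at hγ
      obtain ⟨d, hd, rfl⟩ := mem_toZFSet_iff.1 hγ
      rw [coe_toZFSet]
      apply Set.Countable.image
      rw [← Cardinal.le_aleph0_iff_set_countable, Cardinal.mk_Iio_ordinal, Cardinal.lift_le_aleph0]
      rw [← Cardinal.ord_aleph, Cardinal.lt_ord, ← Cardinal.succ_aleph0, Order.lt_succ_iff] at hd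
      exact hd
    have hAc : (A : Set ZFSet.{u}).Countable := by
      classical
      have h3 : ∀ a : ZFSet.{u}, a ∈ A → ∃ i ∈ γ, ZFSet.pair i a ∈ h := h1
      choose! f hf1 hf2 using h3
      refine Set.MapsTo.countable_of_injOn (f := f) (t := (γ : Set ZFSet.{u})) (fun a ha => hf1 a ha) ?_ hγc
      intro a ha b hb hab
      have e1 := hf2 a ha
      have e2 := hf2 b hb
      rw [hab] at e1
      exact h2 _ _ _ e1 e2
    obtain ⟨X, hX⟩ := hne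
    obtain ⟨F, hF⟩ := hAc.exists_eq_range ⟨X, hX⟩
    refine hV F (fun i => ?_) _ hIC hIs (fun β _ hβ => ?_)
    · have : F i ∈ (A : Set ZFSet.{u}) := by rw [hF]; exact ⟨i, rfl⟩
      exact hAU this
    · rw [mem_sInter ⟨X, hX⟩]
      intro Y hY
      have : Y ∈ Set.range F := by rw [← hF]; exact hY
      obtain ⟨i, rfl⟩ := this
      exact hβ i
  refine ⟨ν, φ, U, hν, ⟨⟨ν + 1, hU⟩, hUs, htop, hup, hunb, hcpl, hV⟩, fun X hX hXs => ⟨hpar X hX hXs, hdet X hX hXs⟩, ?_⟩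
  constructor
  · intro hm X hX hXs
    rw [hdet X hX hXs]
    by_cases h : X ∈ U
    · exact Or.inl h
    · right
      by_contra h2
      exact h ((hm.ultra X hX hXs).2 h2)
  · intro h
    refine ⟨⟨ν + 1, hU⟩, hUs, ?_, hup, ?_, hcpl⟩
    · intro X hX hXs
      constructor
      · intro h1 h2
        have h3 := hV (fun i => if i = 0 then X else Om \ X) (by
          intro i
          by_cases hi : i = 0
          · simpa [hi] using h1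
          · simpa [hi] using h2) (X \ X) (C2_diff hL hX hX) (fun β hβ => hXs (mem_sdiff.1 hβ).1) (by
          intro β hβ h4
          have h5 : β ∈ X := by simpa using h4 0
          have h6 : β ∈ Om \ X := by simpa using h4 1
          exact absurd h5 (mem_sdiff.1 h6).2)
        obtain ⟨β, hβ, -⟩ := hunb _ h3 ∅ hOm0
        exact (mem_sdiff.1 hβ).2 (mem_sdiff.1 hβ).1
      · intro h1
        rcases (hdet X hX hXs).1 (h X hX hXs) with h2 | h2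
        · exact h2
        · exact absurd h2 h1
    · intro β hβ hcon
      obtain ⟨γ, hγ, hβγ⟩ := hunb _ hcon β hβ
      rw [mem_singleton] at hγ
      rw [hγ] at hβγ
      exact mem_irrefl β hβγ

end Pool.Agent.K1H69.CM
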