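import Pool.Agent.K1H69.CM.Sem

/-!
# Uniqueness of collapse values, and codes of countable ordinals
-/

set_option autoImplicit false

universe u

namespace Pool.Agent.K1H69.CM

open Ordinal ZFSet

namespace COL

theorem mem_of_mem {M : ZFSet.{u}} {Q : Set (List ZFSet.{u})} (hQ : IsRel M 2 Q)
    {a v : ZFSet.{u}} (h : [a, v] ∈ Q) : a ∈ M ∧ v ∈ M := by
  have := (hQ.2 _ h).2
  exact ⟨this a (by simp), this v (by simp)⟩

theorem nat_mem_W (k : ℕ) : (nat k : ZFSet.{u}) ∈ V_ (ω : Ordinal.{u}) := by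
  rw [nat, mem_vonNeumann, rank_toZFSet]
  exact Ordinal.natCast_lt_omega0 k

theorem nat_inj {k l : ℕ} (h : (nat k : ZFSet.{u}) = nat l) : k = l := by
  have := toZFSet_injective h
  exact_mod_cast this

theorem countable_Iic {d : Ordinal.{u}} (hd : d < ω_ 1) : (Set.Iic d).Countable := by
  have h1 : d.card < Cardinal.aleph 1 := Cardinal.lt_omega_iff_card_lt.mp hd
  have h2 : d.card ≤ Cardinal.aleph0 := by
    rw [← Order.lt_succ_iff, ← Cardinal.aleph_zero, Cardinal.succ_aleph]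
    simpa using h1
  have h3 : (Set.Iio d).Countable := by
    rw [← Cardinal.le_aleph0_iff_set_countable, Cardinal.mk_Iio_ordinal]
    exact Cardinal.lift_le_aleph0.mpr h2
  rw [← Set.Iio_insert]
  exact h3.insert d

end COL

/-- COL: values of collapses are determined by the relation and the point -/
theorem t_COL : S_COL.{u} := by
  intro M hM R g g' hg hg' hG hG' a v
  induction v using ZFSet.inductionOn generalizing a with
  | _ v ih =>
    intro v' h h'
    obtain ⟨ha, hv⟩ := COL.mem_of_mem hg h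
    obtain ⟨-, hv'⟩ := COL.mem_of_mem hg' h'
    obtain ⟨-, g2, g3⟩ := hG a ha v hv h
    obtain ⟨-, g2', g3'⟩ := hG' a ha v' hv' h'
    ext t
    constructor
    · intro ht
      have htM : t ∈ M := hM.tr.mem_trans ht hv
      obtain ⟨b, hb, hR, hbt⟩ := (g3 t htM).mp ht
      obtain ⟨t', ht', hbt'⟩ := g2' b hb hR
      have := ih t ht b t' hbt hbt'
      subst this
      exact (g3' t htM).mpr ⟨b, hb, hR, hbt'⟩
    · intro ht
      have htM : t ∈ M := hM.tr.mem_trans ht hv'
      obtain ⟨b, hb, hR, hbt⟩ := (g3' t htM).mp ht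
      obtain ⟨t', ht', hbt'⟩ := g2 b hb hR
      have htv : t' ∈ v := (g3 t' ht').mpr ⟨b, hb, hR, hbt'⟩
      have := ih t' htv b t hbt' hbt
      subst this
      exact htv

/-- COD: every countable ordinal is coded -/
theorem t_COD : S_COD.{u} := by
  intro M hM δ hδ
  obtain ⟨d, hd, rfl⟩ := mem_toZFSet_iff.mp hδ
  have hc := COL.countable_Iic hd
  obtain ⟨e, he⟩ := Set.countable_iff_exists_injOn.mp hc
  have hnat : ∀ k : ℕ, (nat k : ZFSet.{u}) ∈ M := fun k => hM.tr.mem_trans (COL.nat_mem_W k) hM.W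
  have hord : ∀ b : Ordinal.{u}, b ≤ d → b.toZFSet ∈ M := fun b hb =>
    hM.tr.mem_trans (mem_toZFSet_iff.mpr ⟨b, lt_of_le_of_lt hb hd, rfl⟩) hM.Om
  refine ⟨{q | ∃ b' b : Ordinal.{u}, b' < b ∧ b ≤ d ∧ q = [nat (e b'), nat (e b)]}, ?_, ?_⟩
  · rintro q ⟨b', b, -, -, rfl⟩
    exact ⟨_, COL.nat_mem_W _, _, COL.nat_mem_W _, rfl⟩
  · refine ⟨(fun b : Ordinal.{u} => [nat (e b), b.toZFSet]) '' Set.Iic d, ⟨hc.image _, ?_⟩, ?_,
      nat (e d), hnat _, d, Set.mem_Iic.mpr le_rfl, rfl⟩
    · rintro q ⟨b, hb, rfl⟩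
      refine ⟨rfl, fun a ha => ?_⟩
      simp only [List.mem_cons, List.not_mem_nil, or_false] at ha
      rcases ha with rfl | rfl
      · exact hnat _
      · exact hord b hb
    · intro a ha v hv hav
      obtain ⟨b, hb, hq⟩ := hav
      simp only [List.cons.injEq, and_true] at hq
      obtain ⟨rfl, rfl⟩ := hq
      refine ⟨COL.nat_mem_W _, ?_, ?_⟩
      · rintro c hcM ⟨b', b'', h1, h2, h3⟩
        simp only [List.cons.injEq, and_true] at h3
        obtain ⟨rfl, -⟩ := h3
        have : b' ≤ d := h1.le.trans h2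
        exact ⟨b'.toZFSet, hord b' this, b', this, rfl⟩
      · intro t htM
        constructor
        · intro ht
          obtain ⟨b', hb', rfl⟩ := mem_toZFSet_iff.mp ht
          exact ⟨nat (e b'), hnat _, ⟨b', b, hb', hb, rfl⟩, b', (hb'.le.trans hb : b' ≤ d), rfl⟩
        · rintro ⟨c, hcM, ⟨b', b'', h1, h2, h3⟩, b3, hb3, h4⟩
          simp only [List.cons.injEq, and_true] at h3 h4
          obtain ⟨rfl, h5⟩ := h3
          obtain ⟨h6, rfl⟩ := h4
          have e1 : b = b'' := he hb h2 (COL.nat_inj h5)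
          have e2 : b3 = b' := he hb3 (h1.le.trans h2 : b' ≤ d) (COL.nat_inj h6)
          subst e1 e2
          exact mem_toZFSet_iff.mpr ⟨_, h1, rfl⟩

end Pool.Agent.K1H69.CM
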