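import Pool.Agent.K1H69.CM.Sem

/-!
Determinacy puts a set or its complement in the measure.
-/

set_option autoImplicit false

universe u

namespace Pool.Agent.K1H69.CM

open Ordinal ZFSet

namespace CONE

variable {M : ZFSet.{u}}

lemma W_sub (hM : Base M) {a : ZFSet.{u}} (ha : a ∈ V_ (ω : Ordinal.{u})) : a ∈ M :=
  hM.tr.subset_of_mem hM.W ha

lemma W_countable : {x : ZFSet.{u} | x ∈ V_ (ω : Ordinal.{u})}.Countable := by
  have h : Cardinal.mk {x : ZFSet.{u} | x ∈ V_ (ω : Ordinal.{u})} = Cardinal.aleph0 := by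
    have h1 := cardinalMk_coe_sort (x := V_ (ω : Ordinal.{u}))
    rw [card_vonNeumann, Cardinal.preBeth_omega, Cardinal.lift_aleph0] at h1
    exact h1
  exact Cardinal.le_aleph0_iff_set_countable.1 (le_of_eq h)

lemma nat_om (n : ℕ) : (nat n : ZFSet.{u}) ∈ (om : ZFSet.{u}) :=
  toZFSet_mem_toZFSet_iff.2 (natCast_lt_omega0 n)

lemma om_nat {x : ZFSet.{u}} (h : x ∈ (om : ZFSet.{u})) : ∃ n : ℕ, x = nat n := by
  obtain ⟨a, ha, rfl⟩ := mem_toZFSet_iff.1 h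
  obtain ⟨n, rfl⟩ := lt_omega0.1 ha
  exact ⟨n, rfl⟩

lemma nat_W (n : ℕ) : (nat n : ZFSet.{u}) ∈ V_ (ω : Ordinal.{u}) := by
  rw [mem_vonNeumann]
  unfold nat
  rw [rank_toZFSet]
  exact natCast_lt_omega0 n

lemma nat_inj {m n : ℕ} (h : (nat m : ZFSet.{u}) = nat n) : m = n := by
  have := toZFSet_injective h
  exact_mod_cast this

lemma isRel_of_onW (hM : Base M) {B : Set (List ZFSet.{u})} (hB : OnW B) : IsRel M 2 B := by
  refine ⟨?_, fun q hq => ?_⟩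
  · have h : B ⊆ (fun p : ZFSet.{u} × ZFSet.{u} => [p.1, p.2]) ''
        ({x : ZFSet.{u} | x ∈ V_ (ω : Ordinal.{u})} ×ˢ {x : ZFSet.{u} | x ∈ V_ (ω : Ordinal.{u})}) := by
      intro q hq
      obtain ⟨a, ha, b, hb, rfl⟩ := hB q hq
      exact ⟨(a, b), ⟨ha, hb⟩, rfl⟩
    exact ((W_countable.prod W_countable).image _).mono h
  · obtain ⟨a, ha, b, hb, rfl⟩ := hB q hq
    refine ⟨rfl, fun c hc => ?_⟩
    simp only [List.mem_cons, List.not_mem_nil, or_false] at hc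
    rcases hc with rfl | rfl
    · exact W_sub hM ha
    · exact W_sub hM hb

lemma gr_onW (y : ℕ → V_ (ω : Ordinal.{u})) : OnW (gr y) := by
  rintro q ⟨n, rfl⟩
  exact ⟨_, nat_W n, _, (y n).2, rfl⟩

lemma run_ex {Y : Set (List ZFSet.{u})} (hM : Base M) (hY : IsRel M 2 Y) (hR : Run M Y) :
    ∃ y : ℕ → V_ (ω : Ordinal.{u}), Y = gr y := by
  obtain ⟨h1, h2, h3⟩ := hR
  have h4 : ∀ n : ℕ, (nat n : ZFSet.{u}) ∈ M := fun n => W_sub hM (nat_W n)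
  have h5 : ∀ n : ℕ, ∃ v : V_ (ω : Ordinal.{u}), [nat n, (v : ZFSet.{u})] ∈ Y := fun n => by
    obtain ⟨v, hv, hv'⟩ := h2 (nat n) (h4 n) (nat_om n)
    exact ⟨⟨v, (h1 _ (h4 n) _ hv hv').2⟩, hv'⟩
  choose y hy using h5
  refine ⟨y, Set.ext fun q => ⟨fun hq => ?_, ?_⟩⟩
  · obtain ⟨hl, hm⟩ := hY.2 q hq
    obtain ⟨n, v, rfl⟩ : ∃ n v, q = [n, v] := by
      rcases q with _ | ⟨n, _ | ⟨v, _ | ⟨w, l⟩⟩⟩
      · simp at hl
      · simp at hl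
      · exact ⟨n, v, rfl⟩
      · simp at hl
    have hn : n ∈ M := hm n (by simp)
    have hv : v ∈ M := hm v (by simp)
    obtain ⟨k, rfl⟩ := om_nat (h1 n hn v hv hq).1
    refine ⟨k, ?_⟩
    rw [h3 _ hn v hv (y k) (W_sub hM (y k).2) hq (hy k)]
  · rintro ⟨n, rfl⟩
    exact hy n

lemma gen_l (Y0 Y1 : ZFSet.{u} → ZFSet.{u} → Prop) : Gen M Y0 Y1 Y0 := fun _ _ _ h _ => h

lemma gen_r (Y0 Y1 : ZFSet.{u} → ZFSet.{u} → Prop) : Gen M Y0 Y1 Y1 := fun _ _ _ _ h => h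

lemma gen_tr {Y0 Y1 Z0 Z1 R : ZFSet.{u} → ZFSet.{u} → Prop} (h0 : Gen M Y0 Y1 Z0)
    (h1 : Gen M Y0 Y1 Z1) (h : Gen M Z0 Z1 R) : Gen M Y0 Y1 R :=
  fun F hF hc a b => h F hF hc (h0 F hF hc a b) (h1 F hF hc a b)

lemma play_iff {e : Bool} {A A' B B' : ZFSet.{u} → ZFSet.{u} → Prop}
    (hA : ∀ a ∈ M, ∀ b ∈ M, (A a b ↔ A' a b)) (hB : ∀ a ∈ M, ∀ b ∈ M, (B a b ↔ B' a b))
    {n v : ZFSet.{u}} (hn : n ∈ M) (hv : v ∈ M) : Play M e A B n v ↔ Play M e A' B' n v := by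
  have h1 : (∃ w ∈ M, B n w) ↔ ∃ w ∈ M, B' n w := by
    constructor
    · rintro ⟨w, hw, h⟩; exact ⟨w, hw, (hB n hn w hw).1 h⟩
    · rintro ⟨w, hw, h⟩; exact ⟨w, hw, (hB n hn w hw).2 h⟩
  have h2 : ∀ s, Hist M e B n s ↔ Hist M e B' n s := by
    intro s
    unfold Hist
    refine forall_congr' fun p => forall_congr' fun _ => ?_
    have : (∃ k ∈ M, ∃ w ∈ M, (k ∈ n ∨ (e = true ∧ k = n)) ∧ B k w ∧ p = pair k w) ↔
        ∃ k ∈ M, ∃ w ∈ M, (k ∈ n ∨ (e = true ∧ k = n)) ∧ B' k w ∧ p = pair k w := by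
      constructor
      · rintro ⟨k, hk, w, hw, h, h', h''⟩
        exact ⟨k, hk, w, hw, h, (hB k hk w hw).1 h', h''⟩
      · rintro ⟨k, hk, w, hw, h, h', h''⟩
        exact ⟨k, hk, w, hw, h, (hB k hk w hw).2 h', h''⟩
    rw [this]
  unfold Play
  rw [h1]
  refine and_congr_right fun _ => ?_
  constructor
  · rintro ⟨s, hs, h, h'⟩
    exact ⟨s, hs, (h2 s).1 h, (hA s hs v hv).1 h'⟩
  · rintro ⟨s, hs, h, h'⟩
    exact ⟨s, hs, (h2 s).2 h, (hA s hs v hv).2 h'⟩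

lemma gen_pl {Y0 Y1 A B R : ZFSet.{u} → ZFSet.{u} → Prop} (e : Bool) (hA : Gen M Y0 Y1 A)
    (hB : Gen M Y0 Y1 B) (hR : ∀ n ∈ M, ∀ v ∈ M, (Play M e A B n v ↔ R n v)) :
    Gen M Y0 Y1 R := by
  intro F hF hc h0 h1
  obtain ⟨i, hi, hiW, hi'⟩ := hA F hF hc h0 h1
  obtain ⟨j, hj, hjW, hj'⟩ := hB F hF hc h0 h1
  obtain ⟨k, hk, hkW, hk'⟩ := hc.2.2 e i hi hiW j hj hjW
  refine ⟨k, hk, hkW, fun a ha b hb => ?_⟩
  rw [hk' a ha b hb, ← hR a ha b hb]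
  exact play_iff hi' hj' ha hb

lemma out_iff {Y0 Y1 Z0 Z1 : ZFSet.{u} → ZFSet.{u} → Prop}
    (h : ∀ R, Gen M Y0 Y1 R ↔ Gen M Z0 Z1 R) (X : ZFSet.{u}) :
    Out M Y0 Y1 X ↔ Out M Z0 Z1 X := by
  unfold Out Fv
  simp only [h]

end CONE

open CONE in
/-- **CONE** -/
theorem t_CONE (hP : S_PLY.{u}) (hV : S_VAL.{u}) : S_CONE.{u} := by
  intro M hM X hX hdet
  rcases hdet with ⟨σ, hσ⟩ | ⟨τ, hτ⟩
  · left
    obtain ⟨B, hB, hBp⟩ := hP M hM false σ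
    refine ⟨fun β _ hβ => hX hβ, B, isRel_of_onW hM hB, fun a _ b _ hab => ?_, ?_⟩
    · obtain ⟨a', ha', b', hb', h⟩ := hB _ hab
      simp only [List.cons.injEq, and_true] at h
      rw [h.1, h.2]
      exact ⟨ha', hb'⟩
    · intro Y hY hR hG
      obtain ⟨y, rfl⟩ := run_ex hM hY hR
      have hout := hσ y
      have hgx : Gen M (b2 (gr y)) (b2 (gr y))
          (b2 (gr (fun n => σ (List.ofFn (fun i : Fin n => y i))))) :=
        gen_pl false hG (gen_l _ _) (fun n hn v hv => hBp y n hn v hv)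
      refine (out_iff (fun R => ⟨fun h => ?_, fun h => ?_⟩) X).1 hout
      · exact gen_tr hgx (gen_l _ _) h
      · exact gen_tr (gen_r _ _) (gen_r _ _) h
  · right
    obtain ⟨B, hB, hBp⟩ := hP M hM true τ
    refine ⟨fun β _ hβ => (mem_sdiff.1 hβ).1, B, isRel_of_onW hM hB, fun a _ b _ hab => ?_, ?_⟩
    · obtain ⟨a', ha', b', hb', h⟩ := hB _ hab
      simp only [List.cons.injEq, and_true] at h
      rw [h.1, h.2]
      exact ⟨ha', hb'⟩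
    · intro Y hY hR hG
      obtain ⟨x, rfl⟩ := run_ex hM hY hR
      have hout := hτ x
      have hgy : Gen M (b2 (gr x)) (b2 (gr x))
          (b2 (gr (fun n => τ (List.ofFn (fun i : Fin (n + 1) => x i))))) :=
        gen_pl true hG (gen_l _ _) (fun n hn v hv => hBp x n hn v hv)
      have hno : ¬ Out M (b2 (gr x)) (b2 (gr x)) X := by
        intro h0
        refine hout ((out_iff (fun R => ⟨fun h => ?_, fun h => ?_⟩) X).1 h0)
        · exact gen_tr (gen_l _ _) (gen_l _ _) h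
        · exact gen_tr (gen_l _ _) hgy h
      obtain ⟨γ, hγ, -, hγX⟩ := hV M hM (gr x) (gr x) (gr_onW x) (gr_onW x)
      rw [hγX] at hno ⊢
      exact mem_sdiff.2 ⟨hγ, hno⟩

end Pool.Agent.K1H69.CM
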