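import Pool.Agent.K1H69.CM.Sem

/-!
# Definability of the measure and of the payoff sets

`Dfn M T P`: the property `P` of assignments is given by a formula. Closure lemmas under the logical operations
in a form in which they can be applied mechanically.
-/

set_option autoImplicit false

universe u

namespace Pool.Agent.K1H69.CM.DFN

open Ordinal ZFSet
open Pool.Agent.K1H69.CM

variable {M : ZFSet.{u}} {T : Set ZFSet.{u}}

/-- `P` is definable over `(M, ∈, T)` -/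
def Dfn (M : ZFSet.{u}) (T : Set ZFSet.{u})
    (P : (ℕ → ZFSet.{u}) → (ℕ → Set (List ZFSet.{u})) → Prop) : Prop :=
  ∃ φ : Fml, ∀ (s : ℕ → ZFSet.{u}) (S : ℕ → Set (List ZFSet.{u})), (∀ i, s i ∈ M) →
    (Sat M T φ s S ↔ P s S)

theorem dmem (i j : ℕ) : Dfn M T (fun s _ => s i ∈ s j) := ⟨.mem i j, fun _ _ _ => Iff.rfl⟩

theorem deq (i j : ℕ) : Dfn M T (fun s _ => s i = s j) := ⟨.eq i j, fun _ _ _ => Iff.rfl⟩

theorem drel2 (i j R : ℕ) : Dfn M T (fun s S => [s i, s j] ∈ S R) :=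
  ⟨.rel R [i, j], fun _ _ _ => Iff.rfl⟩

theorem drel3 (i j k R : ℕ) : Dfn M T (fun s S => [s i, s j, s k] ∈ S R) :=
  ⟨.rel R [i, j, k], fun _ _ _ => Iff.rfl⟩

theorem dnot {P : (ℕ → ZFSet.{u}) → (ℕ → Set (List ZFSet.{u})) → Prop} (h : Dfn M T P) :
    Dfn M T (fun s S => ¬ P s S) := by
  obtain ⟨φ, hφ⟩ := h
  exact ⟨.neg φ, fun s S hs => not_congr (hφ s S hs)⟩

theorem dand {P Q : (ℕ → ZFSet.{u}) → (ℕ → Set (List ZFSet.{u})) → Prop} (h : Dfn M T P)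
    (h' : Dfn M T Q) : Dfn M T (fun s S => P s S ∧ Q s S) := by
  obtain ⟨φ, hφ⟩ := h
  obtain ⟨ψ, hψ⟩ := h'
  exact ⟨.and φ ψ, fun s S hs => and_congr (hφ s S hs) (hψ s S hs)⟩

theorem dcongr {P Q : (ℕ → ZFSet.{u}) → (ℕ → Set (List ZFSet.{u})) → Prop} (h : Dfn M T P)
    (h' : ∀ s S, (∀ i, s i ∈ M) → (P s S ↔ Q s S)) : Dfn M T Q := by
  obtain ⟨φ, hφ⟩ := h
  exact ⟨φ, fun s S hs => (hφ s S hs).trans (h' s S hs)⟩

theorem dimp {P Q : (ℕ → ZFSet.{u}) → (ℕ → Set (List ZFSet.{u})) → Prop} (h : Dfn M T P)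
    (h' : Dfn M T Q) : Dfn M T (fun s S => P s S → Q s S) :=
  dcongr (dnot (dand h (dnot h'))) (fun s S _ => by tauto)

theorem dor {P Q : (ℕ → ZFSet.{u}) → (ℕ → Set (List ZFSet.{u})) → Prop} (h : Dfn M T P)
    (h' : Dfn M T Q) : Dfn M T (fun s S => P s S ∨ Q s S) :=
  dcongr (dnot (dand (dnot h) (dnot h'))) (fun s S _ => by tauto)

theorem diff' {P Q : (ℕ → ZFSet.{u}) → (ℕ → Set (List ZFSet.{u})) → Prop} (h : Dfn M T P)
    (h' : Dfn M T Q) : Dfn M T (fun s S => (P s S ↔ Q s S)) :=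
  dcongr (dand (dimp h h') (dimp h' h)) (fun s S _ => by tauto)

theorem dconst (p : Prop) : Dfn M T (fun _ _ => p) := by
  by_cases h : p
  · exact dcongr (deq 0 0) (fun s S _ => by simp [h])
  · exact dcongr (dnot (deq 0 0)) (fun s S _ => by simp [h])

theorem dbool {P : Bool → (ℕ → ZFSet.{u}) → (ℕ → Set (List ZFSet.{u})) → Prop}
    (h : Dfn M T (P true)) (h' : Dfn M T (P false)) : Dfn M T (fun s S => ∀ e : Bool, P e s S) :=
  dcongr (dand h' h) (fun s S _ => by simp)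

theorem dall {B : ZFSet.{u} → (ℕ → ZFSet.{u}) → (ℕ → Set (List ZFSet.{u})) → Prop}
    (h : Dfn M T (fun s S => B (s 0) (fun i => s (i + 1)) S)) :
    Dfn M T (fun s S => ∀ a ∈ M, B a s S) := by
  obtain ⟨φ, hφ⟩ := h
  refine ⟨.all φ, fun s S hs => forall_congr' fun a => imp_congr_right fun ha => ?_⟩
  exact hφ (cons a s) S (by
    intro i
    cases i with
    | zero => exact ha
    | succ i => exact hs i)

theorem dex {B : ZFSet.{u} → (ℕ → ZFSet.{u}) → (ℕ → Set (List ZFSet.{u})) → Prop}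
    (h : Dfn M T (fun s S => B (s 0) (fun i => s (i + 1)) S)) :
    Dfn M T (fun s S => ∃ a ∈ M, B a s S) :=
  dcongr (dnot (dall (B := fun a s S => ¬ B a s S) (dnot h))) (fun s S _ => by push Not; rfl)

theorem dall2 {k : ℕ} {B : Set (List ZFSet.{u}) → (ℕ → ZFSet.{u}) → (ℕ → Set (List ZFSet.{u})) → Prop}
    (h : Dfn M T (fun s S => B (S 0) s (fun i => S (i + 1)))) :
    Dfn M T (fun s S => ∀ Q : Set (List ZFSet.{u}), IsRel M k Q → B Q s S) := by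
  obtain ⟨φ, hφ⟩ := h
  refine ⟨.all2 k φ, fun s S hs => forall_congr' fun Q => imp_congr_right fun hQ => ?_⟩
  exact hφ s (cons Q S) hs

theorem dex2 {k : ℕ} {B : Set (List ZFSet.{u}) → (ℕ → ZFSet.{u}) → (ℕ → Set (List ZFSet.{u})) → Prop}
    (h : Dfn M T (fun s S => B (S 0) s (fun i => S (i + 1)))) :
    Dfn M T (fun s S => ∃ Q : Set (List ZFSet.{u}), IsRel M k Q ∧ B Q s S) :=
  dcongr (dnot (dall2 (k := k) (B := fun a s S => ¬ B a s S) (dnot h)))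
    (fun s S _ => by push Not; rfl)

theorem pair_iff (hM : M.IsTransitive) {p a b : ZFSet.{u}} (hp : p ∈ M) (ha : a ∈ M) (hb : b ∈ M) :
    p = pair a b ↔ (∃ u ∈ M, u ∈ p ∧ ∀ t ∈ M, (t ∈ u ↔ t = a)) ∧
      (∃ u ∈ M, u ∈ p ∧ ∀ t ∈ M, (t ∈ u ↔ t = a ∨ t = b)) ∧
      ∀ u ∈ M, u ∈ p → (∀ t ∈ M, (t ∈ u ↔ t = a)) ∨ ∀ t ∈ M, (t ∈ u ↔ t = a ∨ t = b) := by
  have key1 : ∀ u ∈ M, (∀ t ∈ M, (t ∈ u ↔ t = a)) → u = {a} := by
    intro u hu h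
    ext t
    rw [mem_singleton]
    exact ⟨fun ht => (h t (hM.mem_trans ht hu)).1 ht, fun ht => (h t (ht ▸ ha)).2 ht⟩
  have key2 : ∀ u ∈ M, (∀ t ∈ M, (t ∈ u ↔ t = a ∨ t = b)) → u = {a, b} := by
    intro u hu h
    ext t
    rw [mem_pair]
    refine ⟨fun ht => (h t (hM.mem_trans ht hu)).1 ht, fun ht => (h t ?_).2 ht⟩
    rcases ht with rfl | rfl <;> assumption
  constructor
  · rintro rfl
    have m1 : ({a} : ZFSet.{u}) ∈ pair a b := by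
      unfold pair; rw [mem_pair]; exact Or.inl rfl
    have m2 : ({a, b} : ZFSet.{u}) ∈ pair a b := by
      unfold pair; rw [mem_pair]; exact Or.inr rfl
    refine ⟨⟨{a}, hM.mem_trans m1 hp, m1, fun t _ => mem_singleton⟩,
      ⟨{a, b}, hM.mem_trans m2 hp, m2, fun t _ => mem_pair⟩, ?_⟩
    intro u _ hu
    unfold pair at hu
    rw [mem_pair] at hu
    rcases hu with rfl | rfl
    · exact Or.inl fun t _ => mem_singleton
    · exact Or.inr fun t _ => mem_pair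
  · rintro ⟨⟨u, hu, hup, h1⟩, ⟨v, hv, hvp, h2⟩, h3⟩
    have e1 := key1 u hu h1
    have e2 := key2 v hv h2
    subst e1
    subst e2
    ext t
    unfold pair
    rw [mem_pair]
    constructor
    · intro ht
      have htM := hM.mem_trans ht hp
      rcases h3 t htM ht with h | h
      · exact Or.inl (key1 t htM h)
      · exact Or.inr (key2 t htM h)
    · rintro (rfl | rfl)
      · exact hup
      · exact hvp

theorem dpair (hM : M.IsTransitive) (i j k : ℕ) :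
    Dfn M T (fun s _ => s i = pair (s j) (s k)) := by
  refine dcongr ?_ (fun s S hs => (pair_iff hM (hs i) (hs j) (hs k)).symm)
  refine dand (dex (dand (dmem _ _) (dall (diff' (dmem _ _) (deq _ _))))) (dand
    (dex (dand (dmem _ _) (dall (diff' (dmem _ _) (dor (deq _ _) (deq _ _))))))
    (dall (dimp (dmem _ _) (dor (dall (diff' (dmem _ _) (deq _ _)))
      (dall (diff' (dmem _ _) (dor (deq _ _) (deq _ _))))))))

/-! The definitions with the parameters as variables -/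

def Closed' (M w : ZFSet.{u}) (F : Set (List ZFSet.{u})) : Prop :=
  (∀ i ∈ M, ∀ a ∈ M, ∀ b ∈ M, [i, a, b] ∈ F → i ∈ w ∧ a ∈ w ∧ b ∈ w) ∧
  (∀ i ∈ M, i ∈ w → ∀ c ∈ M, c ∈ w → ∃ j ∈ M, j ∈ w ∧
    ∀ a ∈ M, ∀ b ∈ M, ([j, a, b] ∈ F ↔ Dec M (fun n v => [i, n, v] ∈ F) c a b)) ∧
  (∀ e : Bool, ∀ i ∈ M, i ∈ w → ∀ i' ∈ M, i' ∈ w →
    ∃ j ∈ M, j ∈ w ∧ ∀ n ∈ M, ∀ v ∈ M,
      ([j, n, v] ∈ F ↔ Play M e (fun n v => [i, n, v] ∈ F) (fun n v => [i', n, v] ∈ F) n v))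

def InF' (M w : ZFSet.{u}) (F : Set (List ZFSet.{u})) (Y : ZFSet.{u} → ZFSet.{u} → Prop) : Prop :=
  ∃ i ∈ M, i ∈ w ∧ ∀ a ∈ M, ∀ b ∈ M, ([i, a, b] ∈ F ↔ Y a b)

def Gen' (M w : ZFSet.{u}) (Y0 Y1 R : ZFSet.{u} → ZFSet.{u} → Prop) : Prop :=
  ∀ F : Set (List ZFSet.{u}), IsRel M 3 F → Closed' M w F → InF' M w F Y0 → InF' M w F Y1 →
    InF' M w F R

def Good' (M w : ZFSet.{u}) (R : ZFSet.{u} → ZFSet.{u} → Prop) (g : Set (List ZFSet.{u})) : Prop :=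
  ∀ a ∈ M, ∀ v ∈ M, [a, v] ∈ g → a ∈ w ∧ (∀ b ∈ M, R b a → ∃ t ∈ M, [b, t] ∈ g) ∧
    ∀ t ∈ M, (t ∈ v ↔ ∃ b ∈ M, R b a ∧ [b, t] ∈ g)

def Col' (M w : ZFSet.{u}) (R : ZFSet.{u} → ZFSet.{u} → Prop) (β : ZFSet.{u}) : Prop :=
  ∃ g : Set (List ZFSet.{u}), IsRel M 2 g ∧ Good' M w R g ∧ ∃ a ∈ M, [a, β] ∈ g

def Fv' (M w : ZFSet.{u}) (Y0 Y1 : ZFSet.{u} → ZFSet.{u} → Prop) (β : ZFSet.{u}) : Prop :=
  ∃ R : Set (List ZFSet.{u}), IsRel M 2 R ∧ Gen' M w Y0 Y1 (b2 R) ∧ Col' M w (b2 R) β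

def Out' (M w m : ZFSet.{u}) (Y0 Y1 : ZFSet.{u} → ZFSet.{u} → Prop) (X : ZFSet.{u}) : Prop :=
  ∃ γ ∈ M, γ ∈ X ∧ ∀ β ∈ M, (β ∈ γ ↔ β ∈ m ∧ Fv' M w Y0 Y1 β)

def Run' (M w o : ZFSet.{u}) (Y : Set (List ZFSet.{u})) : Prop :=
  (∀ n ∈ M, ∀ v ∈ M, [n, v] ∈ Y → n ∈ o ∧ v ∈ w) ∧
  (∀ n ∈ M, n ∈ o → ∃ v ∈ M, [n, v] ∈ Y) ∧
  (∀ n ∈ M, ∀ v ∈ M, ∀ v' ∈ M, [n, v] ∈ Y → [n, v'] ∈ Y → v = v')

def InU' (M w o m : ZFSet.{u}) (X : ZFSet.{u}) : Prop :=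
  (∀ β ∈ M, β ∈ X → β ∈ m) ∧
  ∃ B : Set (List ZFSet.{u}), IsRel M 2 B ∧
    (∀ a ∈ M, ∀ b ∈ M, [a, b] ∈ B → a ∈ w ∧ b ∈ w) ∧
    ∀ Y : Set (List ZFSet.{u}), IsRel M 2 Y → Run' M w o Y → Gen' M w (b2 Y) (b2 Y) (b2 B) →
      Out' M w m (b2 Y) (b2 Y) X

theorem dout (hM : M.IsTransitive) :
    Dfn M T (fun s S => Out' M (s 1) (s 3) (b2 (S 0)) (b2 (S 1)) (s 0)) := by
  unfold Out' Fv' Col' Good' Gen' InF' Closed' Play Hist Dec b2
  repeat' (first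
    | exact dpair hM _ _ _ | exact dmem _ _ | exact deq _ _ | exact drel2 _ _ _
    | exact drel3 _ _ _ _ | exact dconst _
    | refine dall ?_ | refine dex ?_ | refine dall2 ?_ | refine dex2 ?_ | refine dbool ?_ ?_
    | refine dand ?_ ?_ | refine dor ?_ ?_ | refine diff' ?_ ?_ | refine dimp ?_ ?_)

theorem dinu (hM : M.IsTransitive) :
    Dfn M T (fun s _ => InU' M (s 1) (s 2) (s 3) (s 0)) := by
  unfold InU' Run' Out' Fv' Col' Good' Gen' InF' Closed' Play Hist Dec b2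
  repeat' (first
    | exact dpair hM _ _ _ | exact dmem _ _ | exact deq _ _ | exact drel2 _ _ _
    | exact drel3 _ _ _ _ | exact dconst _
    | refine dall ?_ | refine dex ?_ | refine dall2 ?_ | refine dex2 ?_ | refine dbool ?_ ?_
    | refine dand ?_ ?_ | refine dor ?_ ?_ | refine diff' ?_ ?_ | refine dimp ?_ ?_)

theorem env_mem (hB : Base M) {X : ZFSet.{u}} (hX : X ∈ M) (i : ℕ) :
    env [X, V_ (ω : Ordinal.{u}), om, Om] i ∈ M := by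
  have h0 : (∅ : ZFSet.{u}) ∈ M := by
    refine hB.tr.mem_trans ?_ hB.W
    rw [mem_vonNeumann, rank_empty]
    exact omega0_pos
  match i with
  | 0 => exact hX
  | 1 => exact hB.W
  | 2 => exact hB.om
  | 3 => exact hB.Om
  | n + 4 => exact h0

end Pool.Agent.K1H69.CM.DFN

namespace Pool.Agent.K1H69.CM

open Ordinal ZFSet DFN

theorem t_DEF : S_DEF.{u} := by
  intro M T hB
  constructor
  · obtain ⟨φ, hφ⟩ := dinu (T := T) hB.tr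
    exact ⟨φ, fun X hX => hφ (env [X, V_ (ω : Ordinal.{u}), om, Om]) (fun _ => ∅) (env_mem hB hX)⟩
  · obtain ⟨φ, hφ⟩ := dout (T := T) hB.tr
    exact ⟨φ, fun X hX Y0 Y1 _ _ => hφ (env [X, V_ (ω : Ordinal.{u}), om, Om])
      (cons Y0 (cons Y1 (fun _ => ∅))) (env_mem hB hX)⟩

end Pool.Agent.K1H69.CM
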