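import Mathlib

/-!
# The inner model `C²(ω)`

`V` is `ZFSet.{u}`. Formulas of `L²_ω` (bound second order variables range over countable relations), the hierarchy
`J'_α`, `α` a limit ordinal, with the truth class `Tr`, and determinacy of the games definable over the levels.
-/

set_option autoImplicit false

universe u

namespace Pool.Agent.K1H69.CM

open Ordinal ZFSet

/-- Terms for the functions which are rudimentary in `Tr` (de Bruijn variables): `x_i`, `s \ t`, `{s, t}`,
`⋃_{z ∈ s} t (z, ...)` and `s ∩ Tr`. -/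
inductive RTerm : Type
  | var : ℕ → RTerm
  | diff : RTerm → RTerm → RTerm
  | upair : RTerm → RTerm → RTerm
  | union : RTerm → RTerm → RTerm
  | tr : RTerm → RTerm

/-- a number for each term -/
def RTerm.num : RTerm → ℕ
  | .var i => 5 * i
  | .diff s t => 5 * Nat.pair s.num t.num + 1
  | .upair s t => 5 * Nat.pair s.num t.num + 2
  | .union s t => 5 * Nat.pair s.num t.num + 3
  | .tr s => 5 * s.num + 4

theorem RTerm.num_injective : Function.Injective RTerm.num := by
  intro s
  induction s with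
  | var i =>
    intro t h
    cases t <;> simp only [RTerm.num] at h <;> first | omega | skip
    rename_i i'
    have : i = i' := by omega
    rw [this]
  | diff s t hs ht =>
    intro t' h
    cases t' <;> simp only [RTerm.num] at h <;> first | omega | skip
    rename_i s' t'
    have h1 := Nat.pair_eq_pair.1 (by omega : Nat.pair s.num t.num = Nat.pair s'.num t'.num)
    rw [hs h1.1, ht h1.2]
  | upair s t hs ht =>
    intro t' h
    cases t' <;> simp only [RTerm.num] at h <;> first | omega | skip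
    rename_i s' t'
    have h1 := Nat.pair_eq_pair.1 (by omega : Nat.pair s.num t.num = Nat.pair s'.num t'.num)
    rw [hs h1.1, ht h1.2]
  | union s t hs ht =>
    intro t' h
    cases t' <;> simp only [RTerm.num] at h <;> first | omega | skip
    rename_i s' t'
    have h1 := Nat.pair_eq_pair.1 (by omega : Nat.pair s.num t.num = Nat.pair s'.num t'.num)
    rw [hs h1.1, ht h1.2]
  | tr s hs =>
    intro t' h
    cases t' <;> simp only [RTerm.num] at h <;> first | omega | skip
    rename_i s'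
    rw [hs (by omega : s.num = s'.num)]

instance : Countable RTerm := RTerm.num_injective.countable

/-- the value of a term for a list of arguments (further variables are `∅`) -/
noncomputable def RTerm.eval (T : Set ZFSet.{u}) : RTerm → List ZFSet.{u} → ZFSet.{u}
  | .var i, l => l.getD i ∅
  | .diff s t, l => s.eval T l \ t.eval T l
  | .upair s t, l => {s.eval T l, t.eval T l}
  | .union s t, l => ZFSet.iUnion (fun z : s.eval T l => t.eval T ((z : ZFSet.{u}) :: l))
  | .tr s, l => (s.eval T l).sep (· ∈ T)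

/-- all values of the functions rudimentary in `Tr` at arguments from `x` -/
noncomputable def rudStep (T : Set ZFSet.{u}) (x : ZFSet.{u}) : ZFSet.{u} :=
  ZFSet.range (fun p : RTerm × List x => p.1.eval T (p.2.map (fun a : x => (a : ZFSet.{u}))))

/-- the closure of `x` under the functions rudimentary in `Tr` -/
noncomputable def rudCl (T : Set ZFSet.{u}) (x : ZFSet.{u}) : ZFSet.{u} :=
  ZFSet.iUnion (fun n : ℕ => (rudStep T)^[n] x)

/-- Formulas of `L²_ω`, de Bruijn variables of both sorts: `x_i ∈ x_j`, `x_i = x_j`, `x_i ∈ Tr`,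
`R_i (x_{v_1}, ..., x_{v_k})`, negation, conjunction, `∀ x`, and `∀ R` of arity `k` (`all2 k`). -/
inductive Fml : Type
  | mem : ℕ → ℕ → Fml
  | eq : ℕ → ℕ → Fml
  | tr : ℕ → Fml
  | rel : ℕ → List ℕ → Fml
  | neg : Fml → Fml
  | and : Fml → Fml → Fml
  | all : Fml → Fml
  | all2 : ℕ → Fml → Fml

/-- the number of a formula -/
def Fml.num : Fml → ℕ
  | .mem i j => 8 * Nat.pair i j
  | .eq i j => 8 * Nat.pair i j + 1
  | .tr i => 8 * i + 2
  | .rel R v => 8 * Nat.pair R (Encodable.encode v) + 3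
  | .neg φ => 8 * φ.num + 4
  | .and φ ψ => 8 * Nat.pair φ.num ψ.num + 5
  | .all φ => 8 * φ.num + 6
  | .all2 k φ => 8 * Nat.pair k φ.num + 7

theorem Fml.num_injective : Function.Injective Fml.num := by
  intro s
  induction s with
  | mem i j =>
    intro t h
    cases t <;> simp only [Fml.num] at h <;> first | omega | skip
    rename_i i' j'
    have h1 := Nat.pair_eq_pair.1 (by omega : Nat.pair i j = Nat.pair i' j')
    rw [h1.1, h1.2]
  | eq i j =>
    intro t h
    cases t <;> simp only [Fml.num] at h <;> first | omega | skip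
    rename_i i' j'
    have h1 := Nat.pair_eq_pair.1 (by omega : Nat.pair i j = Nat.pair i' j')
    rw [h1.1, h1.2]
  | tr i =>
    intro t h
    cases t <;> simp only [Fml.num] at h <;> first | omega | skip
    rename_i i'
    have : i = i' := by omega
    rw [this]
  | rel R v =>
    intro t h
    cases t <;> simp only [Fml.num] at h <;> first | omega | skip
    rename_i R' v'
    have h1 := Nat.pair_eq_pair.1 (by omega : Nat.pair R (Encodable.encode v) = Nat.pair R' (Encodable.encode v'))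
    rw [h1.1, Encodable.encode_injective h1.2]
  | neg φ hφ =>
    intro t h
    cases t <;> simp only [Fml.num] at h <;> first | omega | skip
    rename_i φ'
    rw [hφ (by omega : φ.num = φ'.num)]
  | and φ ψ hφ hψ =>
    intro t h
    cases t <;> simp only [Fml.num] at h <;> first | omega | skip
    rename_i φ' ψ'
    have h1 := Nat.pair_eq_pair.1 (by omega : Nat.pair φ.num ψ.num = Nat.pair φ'.num ψ'.num)
    rw [hφ h1.1, hψ h1.2]
  | all φ hφ =>
    intro t h
    cases t <;> simp only [Fml.num] at h <;> first | omega | skip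
    rename_i φ'
    rw [hφ (by omega : φ.num = φ'.num)]
  | all2 k φ hφ =>
    intro t h
    cases t <;> simp only [Fml.num] at h <;> first | omega | skip
    rename_i k' φ'
    have h1 := Nat.pair_eq_pair.1 (by omega : Nat.pair k φ.num = Nat.pair k' φ'.num)
    rw [h1.1, hφ h1.2]

/-- adding an element in front of an assignment -/
def cons {α : Type*} (a : α) (s : ℕ → α) : ℕ → α
  | 0 => a
  | n + 1 => s n

/-- `Q` is a countable `k`-ary relation on `M` -/
def IsRel (M : ZFSet.{u}) (k : ℕ) (Q : Set (List ZFSet.{u})) : Prop :=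
  Q.Countable ∧ ∀ q ∈ Q, q.length = k ∧ ∀ a ∈ q, a ∈ M

/-- truth of an `L²_ω`-formula in `(M, ∈, T)`: the second order quantifiers range over the countable relations -/
def Sat (M : ZFSet.{u}) (T : Set ZFSet.{u}) : Fml → (ℕ → ZFSet.{u}) → (ℕ → Set (List ZFSet.{u})) → Prop
  | .mem i j, s, _ => s i ∈ s j
  | .eq i j, s, _ => s i = s j
  | .tr i, s, _ => s i ∈ T
  | .rel R v, s, S => v.map s ∈ S R
  | .neg φ, s, S => ¬ Sat M T φ s S
  | .and φ ψ, s, S => Sat M T φ s S ∧ Sat M T ψ s S
  | .all φ, s, S => ∀ a ∈ M, Sat M T φ (cons a s) S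
  | .all2 k φ, s, S => ∀ Q : Set (List ZFSet.{u}), IsRel M k Q → Sat M T φ s (cons Q S)

/-- the assignment given by a list of parameters (further variables are `∅`) -/
def env (a : List ZFSet.{u}) : ℕ → ZFSet.{u} := fun i => a.getD i ∅

/-- a natural number as a set -/
noncomputable def nat (n : ℕ) : ZFSet.{u} := (n : Ordinal.{u}).toZFSet

/-- the code of a formula -/
noncomputable def code (φ : Fml) : ZFSet.{u} := nat φ.num

/-- a finite sequence of sets as a set -/
def tup : List ZFSet.{u} → ZFSet.{u}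
  | [] => ∅
  | a :: l => ZFSet.pair a (tup l)

/-- the set coding `(α, φ (a))` -/
noncomputable def trp (α : Ordinal.{u}) (φ : Fml) (a : List ZFSet.{u}) : ZFSet.{u} :=
  ZFSet.pair α.toZFSet (ZFSet.pair (code φ) (tup a))

/-- the pairs `(α, φ (a))`, `φ (a)` true in `(M, ∈, T)` -/
def truth (α : Ordinal.{u}) (M : ZFSet.{u}) (T : Set ZFSet.{u}) : Set ZFSet.{u} :=
  {p | ∃ (φ : Fml) (a : List ZFSet.{u}), (∀ x ∈ a, x ∈ M) ∧ Sat M T φ (env a) (fun _ => ∅) ∧ p = trp α φ a}

/-- the double induction: `JT ν` is the pair of `J'_{ω ν}` and `Tr ↾ ω ν` -/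
noncomputable def JT (ν : Ordinal.{u}) : ZFSet.{u} × Set ZFSet.{u} :=
  Ordinal.limitRecOn ν (∅, ∅)
    (fun ν X =>
      (rudCl (X.2 ∪ {p | 0 < ν ∧ p ∈ truth (ω * ν) X.1 X.2}) (insert X.1 X.1),
        X.2 ∪ {p | 0 < ν ∧ p ∈ truth (ω * ν) X.1 X.2}))
    (fun ν _ F => (ZFSet.iUnion (fun β : Set.Iio ν => (F β.1 β.2).1), ⋃ β : Set.Iio ν, (F β.1 β.2).2))

/-- `J'_{ω ν}` -/
noncomputable def J (ν : Ordinal.{u}) : ZFSet.{u} := (JT ν).1

/-- `Tr ↾ ω ν` -/
noncomputable def Tr (ν : Ordinal.{u}) : Set ZFSet.{u} := (JT ν).2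

/-- the class `C²(ω)` -/
def C2 : Set ZFSet.{u} := {x | ∃ ν : Ordinal.{u}, x ∈ J ν}

/-- the graph of a sequence of sets, as a binary relation -/
def gr {W : ZFSet.{u}} (x : ℕ → W) : Set (List ZFSet.{u}) := {q | ∃ n : ℕ, q = [nat n, (x n : ZFSet.{u})]}

/-- In the game, players `I` and `II` choose hereditarily finite sets `x 0, y 0, x 1, y 1, ...`; `I` wins if `(x, y)`
satisfies the formula `φ`, with the parameters `a`, over `(M, ∈, T)` (`x`, `y` as countable relations). -/
def Pay (M : ZFSet.{u}) (T : Set ZFSet.{u}) (φ : Fml) (a : List ZFSet.{u}) (x y : ℕ → V_ (ω : Ordinal.{u})) : Prop :=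
  Sat M T φ (env a) (cons (gr x) (cons (gr y) (fun _ => ∅)))

/-- one of the players has a winning strategy in the game with payoff `P` for player `I` -/
def Determined {A : Type*} (P : (ℕ → A) → (ℕ → A) → Prop) : Prop :=
  (∃ σ : List A → A, ∀ y : ℕ → A, P (fun n => σ (List.ofFn (fun i : Fin n => y i))) y) ∨
    (∃ τ : List A → A, ∀ x : ℕ → A, ¬ P x (fun n => τ (List.ofFn (fun i : Fin (n + 1) => x i))))

/-- all games with hereditarily finite moves which are `L²_ω`-definable with parameters over a level of the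
hierarchy are determined -/
def L2Det : Prop := ∀ ν : Ordinal.{u}, 0 < ν → ∀ (φ : Fml) (a : List ZFSet.{u}), (∀ x ∈ a, x ∈ J ν) →
  Determined (Pay (J ν) (Tr ν) φ a)

/-- `ω₁` (of `V`) as a set -/
noncomputable def Om : ZFSet.{u} := (ω_ 1 : Ordinal.{u}).toZFSet

/-- `U ∈ C²(ω)` is in `C²(ω)` a nonprincipal `ω₁^V`-complete ultrafilter on `ω₁^V` -/
structure IsMeasure (U : ZFSet.{u}) : Prop where
  mem : U ∈ (C2 : Set ZFSet.{u})
  sub : ∀ X ∈ U, X ⊆ Om
  ultra : ∀ X ∈ (C2 : Set ZFSet.{u}), X ⊆ Om → (X ∈ U ↔ Om \ X ∉ U)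
  up : ∀ X ∈ U, ∀ Y ∈ (C2 : Set ZFSet.{u}), X ⊆ Y → Y ⊆ Om → Y ∈ U
  nonprincipal : ∀ β ∈ (Om : ZFSet.{u}), ({β} : ZFSet.{u}) ∉ U
  complete : ∀ A ∈ (C2 : Set ZFSet.{u}), A ⊆ U → A.Nonempty →
    (∃ γ ∈ (Om : ZFSet.{u}), ∃ h ∈ (C2 : Set ZFSet.{u}), (∀ a ∈ A, ∃ i ∈ γ, ZFSet.pair i a ∈ h) ∧
      ∀ i a b : ZFSet.{u}, ZFSet.pair i a ∈ h → ZFSet.pair i b ∈ h → a = b) → ⋂₀ A ∈ U

end Pool.Agent.K1H69.CM
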