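import Pool.Agent.K1H69.CM.Sem

/-!
# A countable closed family with two given members

Terms for the operations, with natural numbers as codes for the members of `V_ω`; the family is indexed by the
natural numbers.
-/

set_option autoImplicit false

universe u

namespace Pool.Agent.K1H69.CM

open Ordinal ZFSet

namespace FAM

/-- terms for the relations generated by two relations -/
inductive Tm : Type
  | y0 : Tm
  | y1 : Tm
  | emp : Tm
  | dec : ℕ → Tm → Tm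
  | play : Bool → Tm → Tm → Tm
  deriving Countable

/-- the value of a term -/
def val (M : ZFSet.{u}) (Y0 Y1 : Set (List ZFSet.{u})) (e : ℕ → ZFSet.{u}) : Tm → ZFSet.{u} → ZFSet.{u} → Prop
  | .y0 => b2 Y0
  | .y1 => b2 Y1
  | .emp => fun _ _ => False
  | .dec k t => fun a b => a ∈ M ∧ b ∈ M ∧ Dec M (val M Y0 Y1 e t) (e k) a b
  | .play f s t => fun n v => n ∈ M ∧ v ∈ M ∧ Play M f (val M Y0 Y1 e s) (val M Y0 Y1 e t) n v

/-- `V_ω` is countable -/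
theorem countable_W : Countable (V_ (ω : Ordinal.{u})) := by
  rw [← Cardinal.mk_le_aleph0_iff, cardinalMk_coe_sort, card_vonNeumann, Cardinal.preBeth_omega]
  simp

theorem nat_mem_W (k : ℕ) : (nat k : ZFSet.{u}) ∈ V_ (ω : Ordinal.{u}) := by
  rw [mem_vonNeumann, nat, rank_toZFSet]
  exact natCast_lt_omega0 k

theorem nat_inj {k l : ℕ} (h : (nat k : ZFSet.{u}) = nat l) : k = l := by
  have := toZFSet_injective h
  exact_mod_cast this

theorem trW {x y : ZFSet.{u}} (h : x ∈ y) (hy : y ∈ V_ (ω : Ordinal.{u})) : x ∈ V_ (ω : Ordinal.{u}) :=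
  (isTransitive_vonNeumann (ω : Ordinal.{u})).mem_trans h hy

theorem pair_W {x y : ZFSet.{u}} (h : pair x y ∈ V_ (ω : Ordinal.{u})) :
    x ∈ V_ (ω : Ordinal.{u}) ∧ y ∈ V_ (ω : Ordinal.{u}) := by
  have h1 : ({x, y} : ZFSet.{u}) ∈ V_ (ω : Ordinal.{u}) := trW (by simp [pair]) h
  exact ⟨trW (by simp) h1, trW (by simp) h1⟩

/-- the values are relations on `V_ω` -/
theorem val_W (M : ZFSet.{u}) (Y0 Y1 : Set (List ZFSet.{u})) (e : ℕ → ZFSet.{u}) (h0 : OnW Y0) (h1 : OnW Y1)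
    (t : Tm) : ∀ a b : ZFSet.{u}, val M Y0 Y1 e t a b → a ∈ V_ (ω : Ordinal.{u}) ∧ b ∈ V_ (ω : Ordinal.{u}) := by
  induction t with
  | y0 =>
    intro a b h
    obtain ⟨a', ha', b', hb', hab⟩ := h0 _ h
    simp only [List.cons.injEq, and_true] at hab
    exact ⟨hab.1 ▸ ha', hab.2 ▸ hb'⟩
  | y1 =>
    intro a b h
    obtain ⟨a', ha', b', hb', hab⟩ := h1 _ h
    simp only [List.cons.injEq, and_true] at hab
    exact ⟨hab.1 ▸ ha', hab.2 ▸ hb'⟩
  | emp =>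
    intro a b h
    exact h.elim
  | dec k t ih =>
    rintro a b ⟨-, -, n, -, v, -, hv, p, -, rfl, rfl⟩
    exact pair_W (pair_W (ih _ _ hv).2).2
  | play f s t ihs iht =>
    rintro n v ⟨-, -, ⟨w, -, hw⟩, s, -, -, hs⟩
    exact ⟨(iht _ _ hw).1, (ihs _ _ hs).2⟩

/-- the family -/
def fam (V : Tm → ZFSet.{u} → ZFSet.{u} → Prop) (t : ℕ → Tm) : Set (List ZFSet.{u}) :=
  {q | ∃ k : ℕ, ∃ a b : ZFSet.{u}, V (t k) a b ∧ q = [nat k, a, b]}

theorem mem_fam_nat (V : Tm → ZFSet.{u} → ZFSet.{u} → Prop) (t : ℕ → Tm) (k : ℕ) (a b : ZFSet.{u}) :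
    [nat k, a, b] ∈ fam V t ↔ V (t k) a b := by
  constructor
  · rintro ⟨l, a', b', h, hq⟩
    simp only [List.cons.injEq, and_true] at hq
    obtain ⟨hk, rfl, rfl⟩ := hq
    rw [nat_inj hk]
    exact h
  · intro h
    exact ⟨k, a, b, h, rfl⟩

theorem fam_index (V : Tm → ZFSet.{u} → ZFSet.{u} → Prop) (t : ℕ → Tm) (ht : Function.Surjective t)
    (hV : ∀ a b, ¬ V .emp a b) (i : ZFSet.{u}) :
    ∃ s : Tm, (fun a b => [i, a, b] ∈ fam V t) = V s := by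
  by_cases h : ∃ k : ℕ, i = nat k
  · obtain ⟨k, rfl⟩ := h
    refine ⟨t k, ?_⟩
    funext a b
    exact propext (mem_fam_nat V t k a b)
  · refine ⟨.emp, ?_⟩
    funext a b
    refine propext ⟨?_, fun h => (hV a b h).elim⟩
    rintro ⟨k, a', b', -, hq⟩
    simp only [List.cons.injEq] at hq
    exact (h ⟨k, hq.1⟩).elim

theorem fam_term (V : Tm → ZFSet.{u} → ZFSet.{u} → Prop) (t : ℕ → Tm) (ht : Function.Surjective t) (s : Tm) :
    ∃ j ∈ V_ (ω : Ordinal.{u}), ∀ a b : ZFSet.{u}, ([j, a, b] ∈ fam V t ↔ V s a b) := by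
  obtain ⟨k, rfl⟩ := ht s
  exact ⟨nat k, nat_mem_W k, mem_fam_nat V t k⟩

end FAM

open FAM in
theorem t_FAM : S_FAM.{u} := by
  intro M hM Y0 Y1 h0 h1
  haveI := countable_W.{u}
  haveI : Nonempty (V_ (ω : Ordinal.{u})) := ⟨⟨nat 0, nat_mem_W 0⟩⟩
  haveI : Nonempty Tm := ⟨.emp⟩
  obtain ⟨e, he⟩ := exists_surjective_nat (V_ (ω : Ordinal.{u}))
  obtain ⟨t, ht⟩ := exists_surjective_nat Tm
  set V := val M Y0 Y1 (fun k => (e k : ZFSet.{u})) with hVdef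
  have hW : ∀ s a b, V s a b → a ∈ V_ (ω : Ordinal.{u}) ∧ b ∈ V_ (ω : Ordinal.{u}) :=
    fun s => val_W M Y0 Y1 _ h0 h1 s
  have hWM : ∀ a ∈ V_ (ω : Ordinal.{u}), a ∈ M := fun a ha => hM.tr.mem_trans ha hM.W
  have hemp : ∀ a b, ¬ V .emp a b := fun a b h => h
  have hidx := fam_index V t ht hemp
  have hterm := fam_term V t ht
  refine ⟨fam V t, ⟨?_, ?_⟩, ⟨?_, ?_, ?_⟩, ?_, ?_⟩
  · have hsub : fam V t ⊆ Set.range
        (fun p : ℕ × V_ (ω : Ordinal.{u}) × V_ (ω : Ordinal.{u}) =>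
          ([nat p.1, (p.2.1 : ZFSet.{u}), (p.2.2 : ZFSet.{u})] : List ZFSet.{u})) := by
      rintro q ⟨k, a, b, h, rfl⟩
      exact ⟨(k, ⟨a, (hW _ _ _ h).1⟩, ⟨b, (hW _ _ _ h).2⟩), rfl⟩
    exact (Set.countable_range _).mono hsub
  · rintro q ⟨k, a, b, h, rfl⟩
    refine ⟨rfl, ?_⟩
    intro x hx
    simp only [List.mem_cons, List.not_mem_nil, or_false] at hx
    rcases hx with rfl | rfl | rfl
    · exact hWM _ (nat_mem_W k)
    · exact hWM _ (hW _ _ _ h).1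
    · exact hWM _ (hW _ _ _ h).2
  · rintro i - a - b - ⟨k, a', b', h, hq⟩
    simp only [List.cons.injEq, and_true] at hq
    obtain ⟨rfl, rfl, rfl⟩ := hq
    exact ⟨nat_mem_W k, (hW _ _ _ h).1, (hW _ _ _ h).2⟩
  · intro i _ _ c _ hc
    obtain ⟨s, hs⟩ := hidx i
    obtain ⟨k, hk⟩ := he ⟨c, hc⟩
    obtain ⟨j, hj, hjs⟩ := hterm (.dec k s)
    refine ⟨j, hWM j hj, hj, ?_⟩
    intro a ha b hb
    have hkc : ((e k : V_ (ω : Ordinal.{u})) : ZFSet.{u}) = c := by rw [hk]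
    rw [hjs, hs]
    constructor
    · rintro ⟨-, -, h⟩
      rw [← hkc]
      exact h
    · intro h
      refine ⟨ha, hb, ?_⟩
      rw [← hkc] at h
      exact h
  · intro f i _ _ i' _ _
    obtain ⟨s, hs⟩ := hidx i
    obtain ⟨s', hs'⟩ := hidx i'
    obtain ⟨j, hj, hjs⟩ := hterm (.play f s s')
    refine ⟨j, hWM j hj, hj, ?_⟩
    intro n hn v hv
    rw [hjs, hs, hs']
    exact ⟨fun h => h.2.2, fun h => ⟨hn, hv, h⟩⟩
  · obtain ⟨j, hj, hjs⟩ := hterm .y0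
    exact ⟨j, hWM j hj, hj, fun a _ b _ => hjs a b⟩
  · obtain ⟨j, hj, hjs⟩ := hterm .y1
    exact ⟨j, hWM j hj, hj, fun a _ b _ => hjs a b⟩

end Pool.Agent.K1H69.CM
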