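import Pool.Agent.K1H69.CM.Gen

/-!
# Filter properties of the measure (piece FILT, helper52)
-/

set_option autoImplicit false

universe u

namespace Pool.Agent.K1H69.CM

open Ordinal ZFSet

namespace FILT

/-- the part of a relation on `V_ω` -/
def res (B : Set (List ZFSet.{u})) : Set (List ZFSet.{u}) :=
  {q | ∃ a ∈ V_ (ω : Ordinal.{u}), ∃ b ∈ V_ (ω : Ordinal.{u}), q = [a, b] ∧ q ∈ B}

theorem res_onW (B : Set (List ZFSet.{u})) : OnW (res B) := by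
  rintro q ⟨a, ha, b, hb, rfl, -⟩
  exact ⟨a, ha, b, hb, rfl⟩

theorem res_iff {M : ZFSet.{u}} {B : Set (List ZFSet.{u})}
    (hB : ∀ a ∈ M, ∀ b ∈ M, [a, b] ∈ B → a ∈ V_ (ω : Ordinal.{u}) ∧ b ∈ V_ (ω : Ordinal.{u}))
    {a b : ZFSet.{u}} (ha : a ∈ M) (hb : b ∈ M) : b2 (res B) a b ↔ b2 B a b := by
  constructor
  · rintro ⟨a', -, b', -, -, h⟩
    exact h
  · intro h
    obtain ⟨h1, h2⟩ := hB a ha b hb h
    exact ⟨a, h1, b, h2, rfl, h⟩

/-- decoding a relation -/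
theorem gen_of_dec {M : ZFSet.{u}} (hM : Base M) {Y0 Y1 A B : ZFSet.{u} → ZFSet.{u} → Prop} (i : ℕ)
    (hA : Gen M Y0 Y1 A) (h : ∀ a ∈ M, ∀ b ∈ M, (Dec M A (nat i) a b ↔ B a b)) : Gen M Y0 Y1 B :=
  gen_congr h (gen_dec (hM.W_sub (nat_mem_W i)) (nat_mem_W i) hA)

end FILT

open FILT in
theorem t_FILT (hJ : S_JOIN.{u}) (hC : S_COD.{u}) (hV : S_VAL.{u}) : S_FILT.{u} := by
  intro M hM
  refine ⟨?_, ?_⟩
  · intro X Z hX hZ hXZ
    have h1 : ∀ i, ∃ B : Set (List ZFSet.{u}),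
        (∀ a ∈ M, ∀ b ∈ M, [a, b] ∈ B → a ∈ V_ (ω : Ordinal.{u}) ∧ b ∈ V_ (ω : Ordinal.{u})) ∧
        ∀ Y : Set (List ZFSet.{u}), IsRel M 2 Y → Run M Y → Gen M (b2 Y) (b2 Y) (b2 B) →
          Out M (b2 Y) (b2 Y) (X i) := fun i => by
      obtain ⟨-, B, -, h2, h3⟩ := hX i
      exact ⟨B, h2, h3⟩
    choose B hB1 hB2 using h1
    obtain ⟨⟨C, hCW, hCd⟩, -⟩ := hJ M hM (fun i => res (B i)) (fun i => res_onW (B i))
    refine ⟨fun β _ hβ => hZ hβ, C, OnW.isRel hM hCW, ?_, ?_⟩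
    · intro a _ b _ hab
      obtain ⟨a', ha', b', hb', h2⟩ := hCW _ hab
      simp only [List.cons.injEq, and_true] at h2
      obtain ⟨rfl, rfl⟩ := h2
      exact ⟨ha', hb'⟩
    · intro Y hY hR hG
      obtain ⟨y, rfl⟩ := run_exists hM hY hR
      have hW := (run_gr hM y).2.2
      obtain ⟨γ, hγ, -, hout⟩ := hV M hM (gr y) (gr y) hW hW
      rw [hout]
      refine hXZ γ hγ fun i => ?_
      rw [← hout]
      refine hB2 i _ hY hR (gen_of_dec hM i hG fun a ha b hb => ?_)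
      rw [hCd i a ha b hb, res_iff (hB1 i) ha hb]
  · rintro X ⟨-, B, -, hB1, hB2⟩ δ hδ
    obtain ⟨R, hRW, hRc⟩ := hC M hM δ hδ
    obtain ⟨-, y, hy⟩ := hJ M hM (fun i => if i = 0 then res B else R) (fun i => by
      split_ifs
      · exact res_onW B
      · exact hRW)
    obtain ⟨hrel, hrun, hW⟩ := run_gr hM y
    obtain ⟨γ, hγ, hval, hout⟩ := hV M hM (gr y) (gr y) hW hW
    have g1 : Gen M (b2 (gr y)) (b2 (gr y)) (b2 B) :=
      gen_of_dec hM 0 gen_left fun a ha b hb => by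
        have h := hy 0 a ha b hb
        rw [if_pos rfl] at h
        rw [h, res_iff hB1 ha hb]
    have g2 : Gen M (b2 (gr y)) (b2 (gr y)) (b2 R) :=
      gen_of_dec hM 1 gen_left fun a ha b hb => by
        have h := hy 1 a ha b hb
        rwa [if_neg one_ne_zero] at h
    refine ⟨γ, (hout X).1 (hB2 _ hrel hrun g1), ?_⟩
    rw [hval δ (hM.Om_sub hδ)]
    exact ⟨hδ, R, OnW.isRel hM hRW, g2, hRc⟩

end Pool.Agent.K1H69.CM
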