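import Pool.Agent.K1H69.CM.Sem

/-!
# Closure properties of `Gen`, and runs
-/

set_option autoImplicit false

universe u

namespace Pool.Agent.K1H69.CM

open Ordinal ZFSet

variable {M : ZFSet.{u}} {Y0 Y1 Z0 Z1 A B R R' : ZFSet.{u} → ZFSet.{u} → Prop}

theorem gen_left : Gen M Y0 Y1 Y0 := fun _ _ _ h0 _ => h0

theorem gen_right : Gen M Y0 Y1 Y1 := fun _ _ _ _ h1 => h1

theorem gen_trans (h0 : Gen M Y0 Y1 Z0) (h1 : Gen M Y0 Y1 Z1) (h : Gen M Z0 Z1 R) : Gen M Y0 Y1 R :=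
  fun F hF hC i0 i1 => h F hF hC (h0 F hF hC i0 i1) (h1 F hF hC i0 i1)

theorem inF_congr {F : Set (List ZFSet.{u})} (h : ∀ a ∈ M, ∀ b ∈ M, (R a b ↔ R' a b)) (hR : InF M F R) :
    InF M F R' := by
  obtain ⟨i, hi, hiW, h1⟩ := hR
  exact ⟨i, hi, hiW, fun a ha b hb => (h1 a ha b hb).trans (h a ha b hb)⟩

theorem gen_congr (h : ∀ a ∈ M, ∀ b ∈ M, (R a b ↔ R' a b)) (hR : Gen M Y0 Y1 R) : Gen M Y0 Y1 R' :=
  fun F hF hC i0 i1 => inF_congr h (hR F hF hC i0 i1)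

theorem gen_congr_left (h0 : ∀ a ∈ M, ∀ b ∈ M, (Y0 a b ↔ Z0 a b)) (h1 : ∀ a ∈ M, ∀ b ∈ M, (Y1 a b ↔ Z1 a b))
    (hR : Gen M Y0 Y1 R) : Gen M Z0 Z1 R :=
  fun F hF hC i0 i1 => hR F hF hC (inF_congr (fun a ha b hb => (h0 a ha b hb).symm) i0)
    (inF_congr (fun a ha b hb => (h1 a ha b hb).symm) i1)

theorem dec_congr (h : ∀ a ∈ M, ∀ b ∈ M, (A a b ↔ B a b)) (c a b : ZFSet.{u}) : Dec M A c a b ↔ Dec M B c a b := by
  unfold Dec
  constructor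
  · rintro ⟨n, hn, v, hv, h1, h2⟩
    exact ⟨n, hn, v, hv, (h n hn v hv).1 h1, h2⟩
  · rintro ⟨n, hn, v, hv, h1, h2⟩
    exact ⟨n, hn, v, hv, (h n hn v hv).2 h1, h2⟩

theorem hist_congr (e : Bool) (h : ∀ a ∈ M, ∀ b ∈ M, (A a b ↔ B a b)) (n s : ZFSet.{u}) :
    Hist M e A n s ↔ Hist M e B n s := by
  unfold Hist
  constructor
  · intro h1 p hp
    rw [h1 p hp]
    constructor
    · rintro ⟨k, hk, w, hw, h2, h3, h4⟩
      exact ⟨k, hk, w, hw, h2, (h k hk w hw).1 h3, h4⟩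
    · rintro ⟨k, hk, w, hw, h2, h3, h4⟩
      exact ⟨k, hk, w, hw, h2, (h k hk w hw).2 h3, h4⟩
  · intro h1 p hp
    rw [h1 p hp]
    constructor
    · rintro ⟨k, hk, w, hw, h2, h3, h4⟩
      exact ⟨k, hk, w, hw, h2, (h k hk w hw).2 h3, h4⟩
    · rintro ⟨k, hk, w, hw, h2, h3, h4⟩
      exact ⟨k, hk, w, hw, h2, (h k hk w hw).1 h3, h4⟩

theorem play_congr (e : Bool) (hA : ∀ a ∈ M, ∀ b ∈ M, (A a b ↔ R a b)) (hB : ∀ a ∈ M, ∀ b ∈ M, (B a b ↔ R' a b))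
    (n v : ZFSet.{u}) (hn : n ∈ M) (hv : v ∈ M) : Play M e A B n v ↔ Play M e R R' n v := by
  unfold Play
  constructor
  · rintro ⟨⟨w, hw, h1⟩, s, hs, h2, h3⟩
    exact ⟨⟨w, hw, (hB n hn w hw).1 h1⟩, s, hs, (hist_congr e hB n s).1 h2, (hA s hs v hv).1 h3⟩
  · rintro ⟨⟨w, hw, h1⟩, s, hs, h2, h3⟩
    exact ⟨⟨w, hw, (hB n hn w hw).2 h1⟩, s, hs, (hist_congr e hB n s).2 h2, (hA s hs v hv).2 h3⟩

theorem gen_dec {c : ZFSet.{u}} (hc : c ∈ M) (hcW : c ∈ V_ (ω : Ordinal.{u})) (hA : Gen M Y0 Y1 A) :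
    Gen M Y0 Y1 (Dec M A c) := by
  intro F hF hC i0 i1
  obtain ⟨i, hi, hiW, h⟩ := hA F hF hC i0 i1
  obtain ⟨j, hj, hjW, h2⟩ := hC.2.1 i hi hiW c hc hcW
  exact ⟨j, hj, hjW, fun a ha b hb => (h2 a ha b hb).trans (dec_congr h c a b)⟩

theorem gen_play (e : Bool) (hA : Gen M Y0 Y1 A) (hB : Gen M Y0 Y1 B) :
    Gen M Y0 Y1 (Play M e A B) := by
  intro F hF hC i0 i1
  obtain ⟨i, hi, hiW, h⟩ := hA F hF hC i0 i1
  obtain ⟨i', hi', hiW', h'⟩ := hB F hF hC i0 i1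
  obtain ⟨j, hj, hjW, h2⟩ := hC.2.2 e i hi hiW i' hi' hiW'
  exact ⟨j, hj, hjW, fun n hn v hv => (h2 n hn v hv).trans (play_congr e h h' n v hn hv)⟩

theorem nat_injective : Function.Injective (nat : ℕ → ZFSet.{u}) := by
  intro a b h
  unfold nat at h
  exact_mod_cast toZFSet_injective h

theorem nat_mem_W (n : ℕ) : (nat n : ZFSet.{u}) ∈ V_ (ω : Ordinal.{u}) := by
  rw [mem_vonNeumann, nat, rank_toZFSet]
  exact natCast_lt_omega0 n

theorem mem_om_iff {x : ZFSet.{u}} : x ∈ (om : ZFSet.{u}) ↔ ∃ n : ℕ, x = nat n := by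
  unfold om
  rw [mem_toZFSet_iff]
  constructor
  · rintro ⟨a, ha, rfl⟩
    obtain ⟨n, rfl⟩ := lt_omega0.1 ha
    exact ⟨n, rfl⟩
  · rintro ⟨n, rfl⟩
    exact ⟨n, natCast_lt_omega0 n, rfl⟩

theorem Base.W_sub (hM : Base M) {x : ZFSet.{u}} (hx : x ∈ V_ (ω : Ordinal.{u})) : x ∈ M :=
  hM.tr.subset_of_mem hM.W hx

theorem Base.Om_sub (hM : Base M) {x : ZFSet.{u}} (hx : x ∈ (CM.Om : ZFSet.{u})) : x ∈ M :=
  hM.tr.subset_of_mem hM.Om hx

theorem run_gr (hM : Base M) (y : ℕ → V_ (ω : Ordinal.{u})) : IsRel M 2 (gr y) ∧ Run M (gr y) ∧ OnW (gr y) := by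
  refine ⟨⟨?_, ?_⟩, ⟨?_, ?_, ?_⟩, ?_⟩
  · have : gr y = Set.range (fun n : ℕ => [nat n, (y n : ZFSet.{u})]) := by
      ext q
      simp [gr, eq_comm]
    rw [this]
    exact Set.countable_range _
  · rintro q ⟨n, rfl⟩
    refine ⟨rfl, ?_⟩
    intro a ha
    simp only [List.mem_cons, List.not_mem_nil, or_false] at ha
    rcases ha with rfl | rfl
    · exact hM.W_sub (nat_mem_W n)
    · exact hM.W_sub (y n).2
  · rintro n hn v hv ⟨k, hk⟩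
    simp only [List.cons.injEq, and_true] at hk
    obtain ⟨rfl, rfl⟩ := hk
    exact ⟨mem_om_iff.2 ⟨k, rfl⟩, (y k).2⟩
  · intro n hn hno
    obtain ⟨k, rfl⟩ := mem_om_iff.1 hno
    exact ⟨y k, hM.W_sub (y k).2, k, rfl⟩
  · rintro n hn v hv v' hv' ⟨k, hk⟩ ⟨k', hk'⟩
    simp only [List.cons.injEq, and_true] at hk hk'
    obtain ⟨h1, rfl⟩ := hk
    obtain ⟨h2, rfl⟩ := hk'
    rw [h1] at h2
    rw [nat_injective h2]
  · rintro q ⟨n, rfl⟩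
    exact ⟨_, nat_mem_W n, _, (y n).2, rfl⟩

theorem run_exists (hM : Base M) {Y : Set (List ZFSet.{u})} (hY : IsRel M 2 Y) (hR : Run M Y) :
    ∃ y : ℕ → V_ (ω : Ordinal.{u}), Y = gr y := by
  obtain ⟨h1, h2, h3⟩ := hR
  have h4 : ∀ n : ℕ, ∃ v : V_ (ω : Ordinal.{u}), [nat n, (v : ZFSet.{u})] ∈ Y := by
    intro n
    obtain ⟨v, hv, hvY⟩ := h2 (nat n) (hM.W_sub (nat_mem_W n)) (mem_om_iff.2 ⟨n, rfl⟩)
    exact ⟨⟨v, (h1 _ (hM.W_sub (nat_mem_W n)) v hv hvY).2⟩, hvY⟩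
  choose y hy using h4
  refine ⟨y, ?_⟩
  ext q
  constructor
  · intro hq
    obtain ⟨hl, hm⟩ := hY.2 q hq
    obtain ⟨a, b, rfl⟩ := List.length_eq_two.1 hl
    have ha : a ∈ M := hm a (by simp)
    have hb : b ∈ M := hm b (by simp)
    obtain ⟨n, rfl⟩ := mem_om_iff.1 (h1 a ha b hb hq).1
    exact ⟨n, by rw [h3 _ ha b hb (y n) (hM.W_sub (y n).2) hq (hy n)]⟩
  · rintro ⟨n, rfl⟩
    exact hy n

/-- a relation on `V_ω` is a relation on `M` -/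
theorem W_countable : (V_ (ω : Ordinal.{u}) : Set ZFSet.{u}).Countable := by
  have hfin : ∀ n : ℕ, (V_ (n : Ordinal.{u}) : Set ZFSet.{u}).Finite := by
    intro n
    induction n with
    | zero => simp
    | succ n ih =>
      have h1 : (V_ ((n + 1 : ℕ) : Ordinal.{u})) = powerset (V_ (n : Ordinal.{u})) := by
        push_cast
        exact vonNeumann_add_one _
      rw [h1]
      have h2 : (𝒫 (V_ (n : Ordinal.{u}) : Set ZFSet.{u})).Finite := ih.finite_subsets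
      have h3 : Finite (𝒫 (V_ (n : Ordinal.{u}) : Set ZFSet.{u})) := h2
      have h4 : Finite (powerset (V_ (n : Ordinal.{u}))) := Finite.of_equiv _ (powersetEquiv _).symm
      exact Set.toFinite _
  have : (V_ (ω : Ordinal.{u}) : Set ZFSet.{u}) = ⋃ n : ℕ, (V_ (n : Ordinal.{u}) : Set ZFSet.{u}) := by
    ext x
    simp only [Set.mem_iUnion, SetLike.mem_coe, mem_vonNeumann]
    constructor
    · intro h
      obtain ⟨n, hn⟩ := lt_omega0.1 h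
      refine ⟨n + 1, ?_⟩
      rw [hn]
      exact_mod_cast Nat.lt_succ_self n
    · rintro ⟨n, hn⟩
      exact hn.trans (natCast_lt_omega0 n)
  rw [this]
  exact Set.countable_iUnion (fun n => (hfin n).countable)

theorem OnW.isRel (hM : Base M) {B : Set (List ZFSet.{u})} (hB : OnW B) : IsRel M 2 B := by
  refine ⟨?_, ?_⟩
  · have h1 : ((V_ (ω : Ordinal.{u}) : Set ZFSet.{u}) ×ˢ (V_ (ω : Ordinal.{u}) : Set ZFSet.{u})).Countable :=
      W_countable.prod W_countable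
    refine (h1.image (fun p : ZFSet.{u} × ZFSet.{u} => [p.1, p.2])).mono ?_
    intro q hq
    obtain ⟨a, ha, b, hb, rfl⟩ := hB q hq
    exact ⟨(a, b), ⟨ha, hb⟩, rfl⟩
  · intro q hq
    obtain ⟨a, ha, b, hb, rfl⟩ := hB q hq
    refine ⟨rfl, ?_⟩
    intro x hx
    simp only [List.mem_cons, List.not_mem_nil, or_false] at hx
    rcases hx with rfl | rfl
    · exact hM.W_sub ha
    · exact hM.W_sub hb

/-- pairs of hereditarily finite sets -/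
theorem pair_mem_W {a b : ZFSet.{u}} (ha : a ∈ V_ (ω : Ordinal.{u})) (hb : b ∈ V_ (ω : Ordinal.{u})) :
    ZFSet.pair a b ∈ V_ (ω : Ordinal.{u}) := by
  rw [mem_vonNeumann] at *
  have h : ∀ {x y : Ordinal.{u}}, x < ω → y < ω → max (Order.succ x) (Order.succ y) < ω := by
    intro x y hx hy
    exact max_lt (isSuccLimit_omega0.succ_lt hx) (isSuccLimit_omega0.succ_lt hy)
  unfold ZFSet.pair
  rw [rank_pair, rank_pair, rank_singleton]
  exact h (isSuccLimit_omega0.succ_lt ha) (h ha hb)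

end Pool.Agent.K1H69.CM
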