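import Pool.Agent.K1H69.CM.Sem

/-!
# The first level of the hierarchy is `V_ω`
-/

set_option autoImplicit false

universe u

namespace Pool.Agent.K1H69.CM

open Ordinal ZFSet

namespace HF

/-- the first level is the closure of `{∅}` -/
theorem exists_J_one : ∃ T : Set ZFSet.{u}, (J 1 : ZFSet.{u}) = rudCl T {∅} := by
  have h1 : (1 : Ordinal.{u}) = 0 + 1 := (zero_add 1).symm
  have h2 : (insert (∅ : ZFSet.{u}) ∅ : ZFSet.{u}) = {∅} := by
    ext z
    simp
  unfold J JT
  rw [h1, Ordinal.limitRecOn_add_one, Ordinal.limitRecOn_zero]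
  dsimp only
  rw [h2]
  exact ⟨_, rfl⟩

/-- a bound for the rank of the value of a term -/
theorem rank_eval (T : Set ZFSet.{u}) (t : RTerm) : ∃ c : ℕ, ∀ (l : List ZFSet.{u}) (ρ : Ordinal.{u}),
    (∀ a ∈ l, rank a ≤ ρ) → rank (t.eval T l) ≤ ρ + c := by
  induction t with
  | var i =>
    refine ⟨0, fun l ρ hl => ?_⟩
    rw [RTerm.eval, Nat.cast_zero, add_zero]
    rcases lt_or_ge i l.length with hi | hi
    · rw [List.getD_eq_getElem _ _ hi]
      exact hl _ (List.getElem_mem hi)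
    · rw [List.getD_eq_default _ _ hi, rank_empty]
      exact zero_le
  | diff s t hs ht =>
    obtain ⟨c, hc⟩ := hs
    refine ⟨c, fun l ρ hl => (rank_mono ?_).trans (hc l ρ hl)⟩
    rw [RTerm.eval]
    intro z hz
    exact (mem_sdiff.1 hz).1
  | upair s t hs ht =>
    obtain ⟨c, hc⟩ := hs
    obtain ⟨d, hd⟩ := ht
    refine ⟨c + d + 1, fun l ρ hl => ?_⟩
    rw [RTerm.eval, rank_pair, Nat.cast_add, Nat.cast_one, ← add_assoc]
    have key : ∀ (e : ℕ) (y : ZFSet.{u}), e ≤ c + d → rank y ≤ ρ + e →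
        Order.succ (rank y) ≤ ρ + ((c + d : ℕ) : Ordinal.{u}) + 1 := by
      intro e y he hy
      rw [Order.succ_eq_add_one]
      gcongr
      exact hy.trans (by gcongr)
    exact max_le (key c _ (Nat.le_add_right c d) (hc l ρ hl)) (key d _ (Nat.le_add_left d c) (hd l ρ hl))
  | union s t hs ht =>
    obtain ⟨c, hc⟩ := hs
    obtain ⟨d, hd⟩ := ht
    refine ⟨c + d, fun l ρ hl => ?_⟩
    rw [RTerm.eval, Nat.cast_add, ← add_assoc, rank_iUnion]
    refine Ordinal.iSup_le (fun z => ?_)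
    refine hd _ _ (fun a ha => ?_)
    rcases List.mem_cons.1 ha with rfl | ha
    · exact (rank_lt_of_mem z.2).le.trans (hc l ρ hl)
    · exact (hl a ha).trans le_self_add
  | tr s hs =>
    obtain ⟨c, hc⟩ := hs
    refine ⟨c, fun l ρ hl => (rank_mono ?_).trans (hc l ρ hl)⟩
    rw [RTerm.eval]
    exact sep_subset

/-- finite lists of elements of `V_ω` have bounded rank -/
theorem list_bound (l : List ZFSet.{u}) (hl : ∀ a ∈ l, a ∈ V_ (ω : Ordinal.{u})) :
    ∃ m : ℕ, ∀ a ∈ l, rank a ≤ (m : Ordinal.{u}) := by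
  induction l with
  | nil => exact ⟨0, by simp⟩
  | cons b l ih =>
    obtain ⟨m, hm⟩ := ih (fun a ha => hl a (List.mem_cons_of_mem _ ha))
    obtain ⟨k, hk⟩ := Ordinal.lt_omega0.1 (mem_vonNeumann.1 (hl b List.mem_cons_self))
    refine ⟨max k m, fun a ha => ?_⟩
    rcases List.mem_cons.1 ha with rfl | ha
    · rw [hk]
      exact_mod_cast le_max_left k m
    · exact (hm a ha).trans (by exact_mod_cast le_max_right k m)

/-- the iterates are contained in `V_ω` -/
theorem iter_subset (T : Set ZFSet.{u}) (n : ℕ) :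
    (rudStep T)^[n] ({∅} : ZFSet.{u}) ⊆ V_ (ω : Ordinal.{u}) := by
  induction n with
  | zero =>
    intro z hz
    rw [Function.iterate_zero, id] at hz
    rw [mem_singleton.1 hz, mem_vonNeumann, rank_empty]
    exact Ordinal.omega0_pos
  | succ n ih =>
    intro z hz
    rw [Function.iterate_succ_apply'] at hz
    unfold rudStep at hz
    obtain ⟨⟨t, p⟩, rfl⟩ := mem_range.1 hz
    obtain ⟨c, hc⟩ := rank_eval T t
    obtain ⟨m, hm⟩ := list_bound (p.map Subtype.val) (by
      intro a ha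
      obtain ⟨b, _, rfl⟩ := List.mem_map.1 ha
      exact ih b.2)
    rw [mem_vonNeumann]
    refine (hc _ _ hm).trans_lt ?_
    exact_mod_cast Ordinal.natCast_lt_omega0 (m + c)

/-- insertion is a term -/
theorem eval_insert (T : Set ZFSet.{u}) (a s : ZFSet.{u}) :
    (RTerm.union (.upair (.upair (.var 0) (.var 0)) (.var 1)) (.var 0)).eval T [a, s] = insert a s := by
  ext z
  rw [RTerm.eval, mem_iUnion, mem_insert_iff]
  constructor
  · rintro ⟨⟨w, hw⟩, hz⟩
    simp only [RTerm.eval, List.getD_cons_zero] at hz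
    simp only [RTerm.eval, List.getD_cons_zero, List.getD_cons_succ, mem_pair] at hw
    rcases hw with rfl | rfl
    · left
      simpa using hz
    · right
      exact hz
  · rintro (rfl | hz)
    · refine ⟨⟨{z, z}, ?_⟩, ?_⟩
      · simp [RTerm.eval]
      · simp [RTerm.eval]
    · refine ⟨⟨s, ?_⟩, ?_⟩
      · simp [RTerm.eval]
      · simpa [RTerm.eval] using hz

/-- finite sets of elements of a closed set are elements of the set -/
theorem mem_of_finite (R : ZFSet.{u}) (h0 : ∅ ∈ R) (h1 : ∀ a ∈ R, ∀ s ∈ R, insert a s ∈ R)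
    (F : Set ZFSet.{u}) (hF : F.Finite) : (∀ z ∈ F, z ∈ R) → ∀ s : ZFSet.{u}, (∀ z, z ∈ s ↔ z ∈ F) → s ∈ R := by
  induction F, hF using Set.Finite.induction_on with
  | empty =>
    intro _ s hs
    have : s = ∅ := by
      rw [eq_empty]
      intro z hz
      exact (hs z).1 hz
    rw [this]
    exact h0
  | @insert a F ha hF ih =>
    intro hR s hs
    have h2 : s.sep (· ∈ F) ∈ R := by
      refine ih (fun z hz => hR z (Set.mem_insert_of_mem _ hz)) _ (fun z => ?_)
      rw [mem_sep, hs]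
      constructor
      · exact fun h => h.2
      · exact fun h => ⟨Set.mem_insert_of_mem _ h, h⟩
    have h3 : s = insert a (s.sep (· ∈ F)) := by
      ext z
      rw [mem_insert_iff, mem_sep, hs, Set.mem_insert_iff]
      tauto
    rw [h3]
    exact h1 _ (hR a (Set.mem_insert _ _)) _ h2

theorem finite_level (R : ZFSet.{u}) (h0 : ∅ ∈ R) (h1 : ∀ a ∈ R, ∀ s ∈ R, insert a s ∈ R) (n : ℕ) :
    {z : ZFSet.{u} | z ∈ V_ (n : Ordinal.{u})}.Finite ∧ V_ (n : Ordinal.{u}) ⊆ R := by
  induction n with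
  | zero =>
    rw [Nat.cast_zero, vonNeumann_zero]
    refine ⟨?_, ?_⟩
    · simp
    · exact empty_subset _
  | succ n ih =>
    obtain ⟨ih1, ih2⟩ := ih
    have h2 : ∀ z : ZFSet.{u}, z ∈ V_ ((n + 1 : ℕ) : Ordinal.{u}) ↔ z ⊆ V_ (n : Ordinal.{u}) := by
      intro z
      rw [Nat.cast_add, Nat.cast_one, vonNeumann_add_one, mem_powerset]
    refine ⟨?_, ?_⟩
    · have h3 : Set.MapsTo (fun y : ZFSet.{u} => {z : ZFSet.{u} | z ∈ y})
          {z : ZFSet.{u} | z ∈ V_ ((n + 1 : ℕ) : Ordinal.{u})}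
          (𝒫 {z : ZFSet.{u} | z ∈ V_ (n : Ordinal.{u})}) := by
        intro y hy z hz
        exact (h2 y).1 hy hz
      refine Set.Finite.of_injOn h3 ?_ ih1.powerset
      intro x _ y _ hxy
      ext z
      exact Set.ext_iff.1 hxy z
    · intro z hz
      have hz' := (h2 z).1 hz
      refine mem_of_finite R h0 h1 {w : ZFSet.{u} | w ∈ z} (ih1.subset (fun w hw => hz' hw)) ?_ z (fun w => Iff.rfl)
      exact fun w hw => ih2 (hz' hw)

end HF

open HF in
/-- the first level is `V_ω` -/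
theorem t_HF (h : S_RUD.{u}) : S_HF.{u} := by
  unfold S_HF
  obtain ⟨T, hT⟩ := exists_J_one.{u}
  rw [hT]
  obtain ⟨-, h1, h2, -⟩ := h T {∅}
  have h3 : ∀ a ∈ rudCl T {∅}, ∀ s ∈ rudCl T {∅}, insert a s ∈ rudCl T {∅} := by
    intro a ha s hs
    rw [← eval_insert T a s]
    refine h1 _ _ (fun b hb => ?_)
    simp only [List.mem_cons, List.not_mem_nil, or_false] at hb
    rcases hb with rfl | rfl
    · exact ha
    · exact hs
  ext z
  constructor
  · intro hz
    unfold rudCl at hz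
    obtain ⟨n, hn⟩ := mem_iUnion.1 hz
    exact iter_subset T n hn
  · intro hz
    obtain ⟨n, hn⟩ := Ordinal.lt_omega0.1 (mem_vonNeumann.1 hz)
    refine (finite_level _ h2 h3 (n + 1)).2 ?_
    rw [mem_vonNeumann, hn]
    exact_mod_cast Nat.lt_succ_self n

end Pool.Agent.K1H69.CM
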