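import Pool.Agent.K1H69.CM.Gen

/-!
# Members of the measure give winning strategies
-/

set_option autoImplicit false

universe u

namespace Pool.Agent.K1H69.CM

open Ordinal ZFSet

theorem out_of_gen {M X : ZFSet.{u}} {Y0 Y1 Z0 Z1 : ZFSet.{u} → ZFSet.{u} → Prop}
    (h : ∀ R : ZFSet.{u} → ZFSet.{u} → Prop, Gen M Y0 Y1 R ↔ Gen M Z0 Z1 R) :
    Out M Y0 Y1 X ↔ Out M Z0 Z1 X := by
  have h1 : ∀ β : ZFSet.{u}, Fv M Y0 Y1 β ↔ Fv M Z0 Z1 β := by
    intro β
    unfold Fv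
    simp only [h]
  unfold Out
  simp only [h1]

theorem pair_ne_empty (a b : ZFSet.{u}) : ZFSet.pair a b ≠ ∅ := by
  intro h
  have : ({a} : ZFSet.{u}) ∈ ZFSet.pair a b := by
    unfold ZFSet.pair
    exact mem_pair.2 (Or.inl rfl)
  rw [h] at this
  exact notMem_empty _ this

theorem empty_mem_W : (∅ : ZFSet.{u}) ∈ V_ (ω : Ordinal.{u}) := by
  rw [mem_vonNeumann, rank_empty]
  exact omega0_pos

/-- an enumeration of the codes of a relation -/
theorem exists_enum (B : Set (List ZFSet.{u})) (hB : OnW B) (i : ℕ) :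
    ∃ E : ℕ → V_ (ω : Ordinal.{u}), ∀ v : ZFSet.{u}, (∃ k, (E k : ZFSet.{u}) = v) ↔
      (v = ∅ ∨ ∃ a b : ZFSet.{u}, [a, b] ∈ B ∧ v = ZFSet.pair (nat i) (ZFSet.pair a b)) := by
  have h1 : {v : V_ (ω : Ordinal.{u}) | (v : ZFSet.{u}) = ∅ ∨
      ∃ a b : ZFSet.{u}, [a, b] ∈ B ∧ (v : ZFSet.{u}) = ZFSet.pair (nat i) (ZFSet.pair a b)}.Countable := by
    have h2 : Countable (V_ (ω : Ordinal.{u})) := W_countable.to_subtype
    exact Set.to_countable _
  obtain ⟨E, hE⟩ := h1.exists_eq_range ⟨⟨∅, empty_mem_W⟩, Or.inl rfl⟩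
  refine ⟨E, fun v => ?_⟩
  constructor
  · rintro ⟨k, rfl⟩
    have : E k ∈ Set.range E := ⟨k, rfl⟩
    rw [← hE] at this
    exact this
  · intro hv
    have hvW : v ∈ V_ (ω : Ordinal.{u}) := by
      rcases hv with rfl | ⟨a, b, hab, rfl⟩
      · exact empty_mem_W
      · obtain ⟨a', ha, b', hb, he⟩ := hB _ hab
        simp only [List.cons.injEq, and_true] at he
        obtain ⟨rfl, rfl⟩ := he
        exact pair_mem_W (nat_mem_W i) (pair_mem_W ha hb)
    have : (⟨v, hvW⟩ : V_ (ω : Ordinal.{u})) ∈ Set.range E := by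
      rw [← hE]
      exact hv
    obtain ⟨k, hk⟩ := this
    exact ⟨k, by rw [hk]⟩

/-- a strategy whose moves code the moves of the other player and a given relation -/
theorem exists_copy {M : ZFSet.{u}} (hM : Base M) (e : Bool) (B : Set (List ZFSet.{u})) (hB : OnW B) :
    ∃ σ : List (V_ (ω : Ordinal.{u})) → V_ (ω : Ordinal.{u}), ∀ y : ℕ → V_ (ω : Ordinal.{u}),
      (∀ a ∈ M, ∀ b ∈ M, (Dec M (b2 (gr (fun n => σ (List.ofFn (fun i : Fin (n + e.toNat) => y i))))) (nat 0) a b ↔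
        b2 B a b)) ∧
      (∀ a ∈ M, ∀ b ∈ M, (Dec M (b2 (gr (fun n => σ (List.ofFn (fun i : Fin (n + e.toNat) => y i))))) (nat 1) a b ↔
        b2 (gr y) a b)) := by
  obtain ⟨E, hE⟩ := exists_enum B hB 0
  let σ : List (V_ (ω : Ordinal.{u})) → V_ (ω : Ordinal.{u}) := fun l =>
    if (l.length - e.toNat) % 2 = 0 then E ((l.length - e.toNat) / 2)
    else ⟨ZFSet.pair (nat 1) (ZFSet.pair (nat ((l.length - e.toNat) / 2))
      (l.getD ((l.length - e.toNat) / 2) ⟨∅, empty_mem_W⟩ : V_ (ω : Ordinal.{u}))),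
      pair_mem_W (nat_mem_W 1) (pair_mem_W (nat_mem_W _) (Subtype.property _))⟩
  refine ⟨σ, fun y => ?_⟩
  have hx : ∀ n : ℕ, σ (List.ofFn (fun i : Fin (n + e.toNat) => y i)) =
      if n % 2 = 0 then E (n / 2) else ⟨ZFSet.pair (nat 1) (ZFSet.pair (nat (n / 2)) (y (n / 2))),
        pair_mem_W (nat_mem_W 1) (pair_mem_W (nat_mem_W _) (y (n / 2)).2)⟩ := by
    intro n
    have hlen : (List.ofFn (fun i : Fin (n + e.toNat) => y i)).length - e.toNat = n := by
      rw [List.length_ofFn]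
      omega
    simp only [σ, hlen]
    split_ifs with h
    · rfl
    · have hlt : n / 2 < (List.ofFn (fun i : Fin (n + e.toNat) => y i)).length := by
        rw [List.length_ofFn]
        omega
      have hget : (List.ofFn (fun i : Fin (n + e.toNat) => y i)).getD (n / 2) ⟨∅, empty_mem_W⟩ = y (n / 2) := by
        rw [List.getD_eq_getElem _ _ hlt, List.getElem_ofFn]
      simp only [hget]
  have h01 : (nat 0 : ZFSet.{u}) ≠ nat 1 := fun h => by
    have := nat_injective h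
    omega
  have heven : ∀ n : ℕ, n % 2 = 0 → (σ (List.ofFn (fun i : Fin (n + e.toNat) => y i)) : ZFSet.{u}) = E (n / 2) := by
    intro n hn
    rw [hx n, if_pos hn]
  have hodd : ∀ n : ℕ, ¬ n % 2 = 0 → (σ (List.ofFn (fun i : Fin (n + e.toNat) => y i)) : ZFSet.{u}) =
      ZFSet.pair (nat 1) (ZFSet.pair (nat (n / 2)) (y (n / 2))) := by
    intro n hn
    rw [hx n, if_neg hn]
  constructor
  · intro a ha b hb
    constructor
    · rintro ⟨n', hn', v, hv, ⟨n, hnv⟩, p, hp, rfl, rfl⟩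
      simp only [List.cons.injEq, and_true] at hnv
      obtain ⟨rfl, hv2⟩ := hnv
      by_cases hn : n % 2 = 0
      · rw [heven n hn] at hv2
        rcases (hE _).1 ⟨n / 2, rfl⟩ with h | ⟨a', b', hab, h⟩
        · rw [h] at hv2
          exact absurd hv2 (pair_ne_empty _ _)
        · rw [h, pair_inj, pair_inj] at hv2
          obtain ⟨-, rfl, rfl⟩ := hv2
          exact hab
      · rw [hodd n hn, pair_inj] at hv2
        exact absurd hv2.1 h01
    · intro hab
      obtain ⟨a', ha', b', hb', he⟩ := hB _ hab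
      simp only [List.cons.injEq, and_true] at he
      obtain ⟨rfl, rfl⟩ := he
      obtain ⟨k, hk⟩ := (hE (ZFSet.pair (nat 0) (ZFSet.pair a b))).2 (Or.inr ⟨a, b, hab, rfl⟩)
      refine ⟨nat (2 * k), hM.W_sub (nat_mem_W _), _, hM.W_sub (pair_mem_W (nat_mem_W 0) (pair_mem_W ha' hb')),
        ⟨2 * k, ?_⟩, _, hM.W_sub (pair_mem_W ha' hb'), rfl, rfl⟩
      rw [heven (2 * k) (by omega), ← hk]
      congr 3
      have : 2 * k / 2 = k := by omega
      rw [this]
  · intro a ha b hb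
    constructor
    · rintro ⟨n', hn', v, hv, ⟨n, hnv⟩, p, hp, rfl, rfl⟩
      simp only [List.cons.injEq, and_true] at hnv
      obtain ⟨rfl, hv2⟩ := hnv
      by_cases hn : n % 2 = 0
      · rw [heven n hn] at hv2
        rcases (hE _).1 ⟨n / 2, rfl⟩ with h | ⟨a', b', hab, h⟩
        · rw [h] at hv2
          exact absurd hv2 (pair_ne_empty _ _)
        · rw [h, pair_inj] at hv2
          exact absurd hv2.1.symm h01
      · rw [hodd n hn, pair_inj, pair_inj] at hv2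
        obtain ⟨-, rfl, rfl⟩ := hv2
        exact ⟨n / 2, rfl⟩
    · rintro ⟨k, hk⟩
      simp only [List.cons.injEq, and_true] at hk
      obtain ⟨rfl, rfl⟩ := hk
      refine ⟨nat (2 * k + 1), hM.W_sub (nat_mem_W _), _,
        hM.W_sub (pair_mem_W (nat_mem_W 1) (pair_mem_W (nat_mem_W k) (y k).2)),
        ⟨2 * k + 1, ?_⟩, _, hM.W_sub (pair_mem_W (nat_mem_W k) (y k).2), rfl, rfl⟩
      rw [hodd (2 * k + 1) (by omega)]
      have : (2 * k + 1) / 2 = k := by omega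
      rw [this]

/-- members of the measure give winning strategies -/
theorem determined_of_inU (hV : S_VAL.{u}) {M : ZFSet.{u}} (hM : Base M) (X : ZFSet.{u})
    (h : InU M X ∨ InU M (Om \ X)) :
    Determined (fun x y : ℕ → V_ (ω : Ordinal.{u}) => Out M (b2 (gr x)) (b2 (gr y)) X) := by
  have hOn : ∀ B : Set (List ZFSet.{u}), IsRel M 2 B →
      (∀ a ∈ M, ∀ b ∈ M, [a, b] ∈ B → a ∈ V_ (ω : Ordinal.{u}) ∧ b ∈ V_ (ω : Ordinal.{u})) → OnW B := by
    intro B hB hBW q hq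
    obtain ⟨hl, hm⟩ := hB.2 q hq
    obtain ⟨a, b, rfl⟩ := List.length_eq_two.1 hl
    obtain ⟨h1, h2⟩ := hBW a (hm a (by simp)) b (hm b (by simp)) hq
    exact ⟨a, h1, b, h2, rfl⟩
  rcases h with ⟨-, B, hB, hBW, h⟩ | ⟨-, B, hB, hBW, h⟩
  · left
    obtain ⟨σ, hσ⟩ := exists_copy hM false B (hOn B hB hBW)
    refine ⟨σ, fun y => ?_⟩
    obtain ⟨h1, h2⟩ := hσ y
    set x : ℕ → V_ (ω : Ordinal.{u}) := fun n => σ (List.ofFn (fun i : Fin (n + false.toNat) => y i)) with hx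
    have hgB : Gen M (b2 (gr x)) (b2 (gr x)) (b2 B) :=
      gen_congr h1 (gen_dec (hM.W_sub (nat_mem_W 0)) (nat_mem_W 0) gen_left)
    have hgy : Gen M (b2 (gr x)) (b2 (gr x)) (b2 (gr y)) :=
      gen_congr h2 (gen_dec (hM.W_sub (nat_mem_W 1)) (nat_mem_W 1) gen_left)
    have h3 := h (gr x) (run_gr hM x).1 (run_gr hM x).2.1 hgB
    rw [out_of_gen (Z0 := b2 (gr x)) (Z1 := b2 (gr y))] at h3
    · exact h3
    · intro R
      exact ⟨fun hR => gen_trans gen_left gen_left hR, fun hR => gen_trans gen_left hgy hR⟩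
  · right
    obtain ⟨τ, hτ⟩ := exists_copy hM true B (hOn B hB hBW)
    refine ⟨τ, fun x => ?_⟩
    obtain ⟨h1, h2⟩ := hτ x
    set y : ℕ → V_ (ω : Ordinal.{u}) := fun n => τ (List.ofFn (fun i : Fin (n + true.toNat) => x i)) with hy
    have hgB : Gen M (b2 (gr y)) (b2 (gr y)) (b2 B) :=
      gen_congr h1 (gen_dec (hM.W_sub (nat_mem_W 0)) (nat_mem_W 0) gen_left)
    have hgx : Gen M (b2 (gr y)) (b2 (gr y)) (b2 (gr x)) :=
      gen_congr h2 (gen_dec (hM.W_sub (nat_mem_W 1)) (nat_mem_W 1) gen_left)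
    have h3 := h (gr y) (run_gr hM y).1 (run_gr hM y).2.1 hgB
    rw [out_of_gen (Z0 := b2 (gr x)) (Z1 := b2 (gr y))] at h3
    · obtain ⟨γ, -, -, hγ⟩ := hV M hM (gr x) (gr y) (run_gr hM x).2.2 (run_gr hM y).2.2
      rw [hγ, mem_sdiff] at h3
      intro h4
      have h4' : Out M (b2 (gr x)) (b2 (gr y)) X := h4
      rw [hγ] at h4'
      exact h3.2 h4'
    · intro R
      exact ⟨fun hR => gen_trans gen_right gen_right hR, fun hR => gen_trans hgx gen_left hR⟩

end Pool.Agent.K1H69.CM
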