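import Pool.Agent.K1H69.CM.Sem

/-!
# Joins of countably many relations
-/

set_option autoImplicit false

universe u

namespace Pool.Agent.K1H69.CM

open Ordinal ZFSet

namespace JOIN

theorem nat_inj {i j : ℕ} (h : (nat i : ZFSet.{u}) = nat j) : i = j := by
  have h' := toZFSet_injective h
  exact_mod_cast h'

theorem mem_W {x : ZFSet.{u}} : x ∈ V_ (ω : Ordinal.{u}) ↔ rank x < ω := mem_vonNeumann

theorem nat_W (i : ℕ) : (nat i : ZFSet.{u}) ∈ V_ (ω : Ordinal.{u}) := by
  rw [mem_W, nat, rank_toZFSet]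
  exact natCast_lt_omega0 i

theorem pair_W {a b : ZFSet.{u}} (ha : a ∈ V_ (ω : Ordinal.{u})) (hb : b ∈ V_ (ω : Ordinal.{u})) :
    pair a b ∈ V_ (ω : Ordinal.{u}) := by
  rw [mem_W] at *
  have hs : ∀ {o : Ordinal.{u}}, o < ω → Order.succ o < ω := fun h => isSuccLimit_omega0.succ_lt h
  rw [pair, rank_pair, rank_singleton, rank_pair]
  exact max_lt (hs (hs ha)) (hs (max_lt (hs ha) (hs hb)))

theorem empty_W : (∅ : ZFSet.{u}) ∈ V_ (ω : Ordinal.{u}) := by
  rw [mem_W, rank_empty]; exact omega0_pos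

theorem sub_M {M : ZFSet.{u}} (hM : Base M) {x : ZFSet.{u}} (hx : x ∈ V_ (ω : Ordinal.{u})) : x ∈ M :=
  hM.tr.subset_of_mem hM.W hx

theorem countable_W : (V_ (ω : Ordinal.{u}) : Set ZFSet.{u}).Countable := by
  have h : (V_ (ω : Ordinal.{u}) : ZFSet.{u}) = ⋃ a : Set.Iio (ω : Ordinal.{u}), vonNeumann a :=
    vonNeumann_of_isSuccPrelimit isSuccLimit_omega0.isSuccPrelimit
  have h2 : (V_ (ω : Ordinal.{u}) : Set ZFSet.{u}) ⊆ ⋃ n : ℕ, (V_ (n : Ordinal.{u}) : Set ZFSet.{u}) := by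
    intro x hx
    have hx' : x ∈ V_ (ω : Ordinal.{u}) := hx
    rw [mem_W] at hx'
    obtain ⟨n, hn⟩ := lt_omega0.1 hx'
    refine Set.mem_iUnion.2 ⟨n + 1, ?_⟩
    show x ∈ V_ ((n + 1 : ℕ) : Ordinal.{u})
    rw [mem_vonNeumann, hn]
    exact_mod_cast Nat.lt_succ_self n
  refine (Set.countable_iUnion fun n => ?_).mono h2
  have hfin : ∀ n : ℕ, (V_ (n : Ordinal.{u}) : Set ZFSet.{u}).Finite := by
    intro n
    induction n with
    | zero =>
      have : (V_ ((0 : ℕ) : Ordinal.{u}) : ZFSet.{u}) = ∅ := by simp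
      rw [this]; simp
    | succ n ih =>
      have : (V_ ((n + 1 : ℕ) : Ordinal.{u}) : ZFSet.{u}) = powerset (V_ (n : Ordinal.{u})) := by
        push_cast
        exact vonNeumann_add_one _
      rw [this]
      have h3 : ((fun z : ZFSet.{u} => (z : Set ZFSet.{u})) '' (powerset (V_ (n : Ordinal.{u})) : Set ZFSet.{u})) ⊆
          𝒫 (V_ (n : Ordinal.{u}) : Set ZFSet.{u}) := by
        rintro _ ⟨z, hz, rfl⟩
        have hz' : z ∈ powerset (V_ (n : Ordinal.{u})) := hz
        rw [mem_powerset] at hz'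
        exact fun t ht => hz' ht
      exact Set.Finite.of_finite_image (ih.finite_subsets.subset h3) (SetLike.coe_injective.injOn)
  exact (hfin n).countable

end JOIN

open JOIN in
theorem t_JOIN : S_JOIN.{u} := by
  intro M hM B hB
  have hBW : ∀ i a b, [a, b] ∈ B i → a ∈ V_ (ω : Ordinal.{u}) ∧ b ∈ V_ (ω : Ordinal.{u}) := by
    intro i a b h
    obtain ⟨a', ha', b', hb', h'⟩ := hB i _ h
    simp only [List.cons.injEq, and_true] at h'
    rw [h'.1, h'.2]
    exact ⟨ha', hb'⟩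
  constructor
  · refine ⟨{q | ∃ i : ℕ, ∃ a b : ZFSet.{u}, [a, b] ∈ B i ∧ q = [∅, pair (nat i) (pair a b)]}, ?_, ?_⟩
    · rintro q ⟨i, a, b, h, rfl⟩
      exact ⟨∅, empty_W, _, pair_W (nat_W i) (pair_W (hBW i a b h).1 (hBW i a b h).2), rfl⟩
    · intro i a ha b hb
      constructor
      · rintro ⟨n, hn, v, hv, ⟨i', a', b', h, h'⟩, p, hp, hpab, hvp⟩
        simp only [List.cons.injEq, and_true] at h'
        rw [h'.2, hpab, pair_inj, pair_inj] at hvp
        obtain ⟨h1, h2, h3⟩ := hvp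
        have := nat_inj h1
        subst this h2 h3
        exact h
      · intro h
        have h' : [a, b] ∈ B i := h
        have hW := hBW i a b h'
        exact ⟨∅, sub_M hM empty_W, pair (nat i) (pair a b), sub_M hM (pair_W (nat_W i) (pair_W hW.1 hW.2)),
          ⟨i, a, b, h', rfl⟩, pair a b, sub_M hM (pair_W hW.1 hW.2), rfl, rfl⟩
  · have hcount : (insert (⟨∅, empty_W⟩ : V_ (ω : Ordinal.{u}))
        {x : V_ (ω : Ordinal.{u}) | ∃ i : ℕ, ∃ a b : ZFSet.{u}, [a, b] ∈ B i ∧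
          (x : ZFSet.{u}) = pair (nat i) (pair a b)}).Countable := by
      have : Countable (V_ (ω : Ordinal.{u})) := countable_W.to_subtype
      exact Set.to_countable _
    obtain ⟨y, hy⟩ := hcount.exists_eq_range (Set.insert_nonempty _ _)
    refine ⟨y, ?_⟩
    intro i a ha b hb
    constructor
    · rintro ⟨n, hn, v, hv, ⟨k, h'⟩, p, hp, hpab, hvp⟩
      simp only [List.cons.injEq, and_true] at h'
      have hyk : y k ∈ Set.range y := ⟨k, rfl⟩
      rw [← hy] at hyk
      rcases hyk with hyk | ⟨i', a', b', h, h''⟩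
      · exfalso
        have : ((y k : V_ (ω : Ordinal.{u})) : ZFSet.{u}) = ∅ := by rw [hyk]
        rw [h'.2, this, hpab] at hvp
        have h5 : ({nat i} : ZFSet.{u}) ∈ (∅ : ZFSet.{u}) := by
          rw [hvp, pair]; simp
        exact notMem_empty _ h5
      · rw [h'.2, h'', hpab, pair_inj, pair_inj] at hvp
        obtain ⟨h1, h2, h3⟩ := hvp
        have := nat_inj h1
        subst this h2 h3
        exact h
    · intro h
      have h' : [a, b] ∈ B i := h
      have hW := hBW i a b h'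
      have hx : (⟨pair (nat i) (pair a b), pair_W (nat_W i) (pair_W hW.1 hW.2)⟩ : V_ (ω : Ordinal.{u})) ∈
          Set.range y := by
        rw [← hy]
        exact Set.mem_insert_of_mem _ ⟨i, a, b, h', rfl⟩
      obtain ⟨k, hk⟩ := hx
      refine ⟨nat k, sub_M hM (nat_W k), pair (nat i) (pair a b), sub_M hM (pair_W (nat_W i) (pair_W hW.1 hW.2)),
          ⟨k, ?_⟩, pair a b, sub_M hM (pair_W hW.1 hW.2), rfl, rfl⟩
      rw [hk]

end Pool.Agent.K1H69.CM
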