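import Pool.Agent.K1H69.CM.Sem

/-!
Project CM (helper69), piece LEV (helper26): the levels of the hierarchy.
-/

set_option autoImplicit false

universe u

namespace Pool.Agent.K1H69.CM

open Ordinal ZFSet

namespace LEV

/-! ### Unfolding the recursion -/

lemma J_zero : (J 0 : ZFSet.{u}) = ∅ := by
  simp [J, JT]

lemma Tr_zero : (Tr 0 : Set ZFSet.{u}) = ∅ := by
  simp [Tr, JT]

lemma Tr_succ (ν : Ordinal.{u}) :
    Tr (ν + 1) = Tr ν ∪ {p | 0 < ν ∧ p ∈ truth (ω * ν) (J ν) (Tr ν)} := by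
  unfold Tr J JT
  rw [limitRecOn_add_one]

lemma J_succ (ν : Ordinal.{u}) :
    J (ν + 1) = rudCl (Tr (ν + 1)) (insert (J ν) (J ν)) := by
  rw [Tr_succ]
  unfold Tr J JT
  rw [limitRecOn_add_one]

lemma mem_J_limit {ν : Ordinal.{u}} (hν : Order.IsSuccLimit ν) {x : ZFSet.{u}} :
    x ∈ J ν ↔ ∃ β < ν, x ∈ J β := by
  have e : J ν = ZFSet.iUnion (fun β : Set.Iio ν => J β.1) := by
    unfold J JT
    rw [limitRecOn_limit _ _ _ _ hν]
  rw [e, ZFSet.mem_iUnion]
  constructor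
  · rintro ⟨β, hβ⟩
    exact ⟨β.1, β.2, hβ⟩
  · rintro ⟨β, h, hβ⟩
    exact ⟨⟨β, h⟩, hβ⟩

lemma mem_Tr_limit {ν : Ordinal.{u}} (hν : Order.IsSuccLimit ν) {x : ZFSet.{u}} :
    x ∈ Tr ν ↔ ∃ β < ν, x ∈ Tr β := by
  have e : Tr ν = ⋃ β : Set.Iio ν, Tr β.1 := by
    unfold Tr JT
    rw [limitRecOn_limit _ _ _ _ hν]
  rw [e, Set.mem_iUnion]
  constructor
  · rintro ⟨β, hβ⟩
    exact ⟨β.1, β.2, hβ⟩
  · rintro ⟨β, h, hβ⟩
    exact ⟨⟨β, h⟩, hβ⟩

/-! ### First properties -/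

lemma trans_insert {M : ZFSet.{u}} (h : M.IsTransitive) : (insert M M : ZFSet.{u}).IsTransitive := by
  intro y hy z hz
  rw [ZFSet.mem_insert_iff] at hy ⊢
  rcases hy with rfl | hy
  · exact Or.inr hz
  · exact Or.inr (h y hy hz)

lemma J_trans (hR : S_RUD.{u}) (ν : Ordinal.{u}) : (J ν).IsTransitive := by
  induction ν using limitRecOn with
  | zero => rw [J_zero]; exact isTransitive_empty
  | add_one ν ih =>
    rw [J_succ]
    exact (hR _ _).2.2.2 (trans_insert ih)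
  | limit ν hν ih =>
    intro y hy z hz
    rw [mem_J_limit hν] at hy ⊢
    obtain ⟨β, hβ, hy⟩ := hy
    exact ⟨β, hβ, ih β hβ y hy hz⟩

lemma J_sub_succ (hR : S_RUD.{u}) (ν : Ordinal.{u}) : J ν ⊆ J (ν + 1) := by
  rw [J_succ]
  intro x hx
  exact (hR _ _).1 (ZFSet.mem_insert_of_mem _ hx)

lemma J_mem_succ (hR : S_RUD.{u}) (ν : Ordinal.{u}) : J ν ∈ J (ν + 1) := by
  rw [J_succ ν]
  exact (hR _ _).1 (ZFSet.mem_insert _ _)

lemma J_mono (hR : S_RUD.{u}) (μ ν : Ordinal.{u}) (h : μ ≤ ν) : J μ ⊆ J ν := by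
  induction ν using limitRecOn with
  | zero =>
    have : μ = 0 := le_antisymm h zero_le
    rw [this]
  | add_one ν ih =>
    rcases h.eq_or_lt with h | h
    · rw [h]
    · intro x hx
      exact J_sub_succ hR ν (ih (Order.lt_add_one_iff.1 h) hx)
  | limit ν hν ih =>
    rcases h.eq_or_lt with h | h
    · rw [h]
    · intro x hx
      exact (mem_J_limit hν).2 ⟨μ, h, hx⟩

/-! ### Ranks -/

lemma rank_eval (t : RTerm) : ∃ c : ℕ, ∀ (T : Set ZFSet.{u}) (ρ : Ordinal.{u}) (l : List ZFSet.{u}),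
    (∀ a ∈ l, rank a ≤ ρ) → rank (t.eval T l) ≤ ρ + c := by
  induction t with
  | var i =>
    refine ⟨0, fun T ρ l h => ?_⟩
    simp only [RTerm.eval, Nat.cast_zero, add_zero]
    by_cases hi : i < l.length
    · rw [List.getD_eq_getElem _ _ hi]
      exact h _ (List.getElem_mem hi)
    · rw [List.getD_eq_default _ _ (not_lt.1 hi), rank_empty]
      exact zero_le
  | diff s t ihs iht =>
    obtain ⟨c, hc⟩ := ihs
    refine ⟨c, fun T ρ l h => ?_⟩
    simp only [RTerm.eval]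
    refine le_trans (rank_mono ?_) (hc T ρ l h)
    intro z hz
    rw [mem_sdiff] at hz
    exact hz.1
  | upair s t ihs iht =>
    obtain ⟨c, hc⟩ := ihs
    obtain ⟨d, hd⟩ := iht
    refine ⟨c + d + 1, fun T ρ l h => ?_⟩
    simp only [RTerm.eval]
    rw [rank_pair]
    have e1 := hc T ρ l h
    have e2 := hd T ρ l h
    push_cast
    rw [← add_assoc ρ, ← add_assoc ρ]
    apply max_le
    · rw [Order.succ_le_iff, Order.lt_add_one_iff]
      exact e1.trans le_self_add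
    · rw [Order.succ_le_iff, Order.lt_add_one_iff]
      refine e2.trans ?_
      gcongr
      exact le_self_add
  | union s t ihs iht =>
    obtain ⟨c, hc⟩ := ihs
    obtain ⟨d, hd⟩ := iht
    refine ⟨c + d, fun T ρ l h => ?_⟩
    simp only [RTerm.eval]
    have e1 := hc T ρ l h
    rw [rank_le_iff]
    intro y hy
    rw [ZFSet.mem_iUnion] at hy
    obtain ⟨z, hz⟩ := hy
    have e3 : rank (z : ZFSet.{u}) ≤ ρ + c := ((rank_lt_of_mem z.2).trans_le e1).le
    have e4 := hd T (ρ + c) ((z : ZFSet.{u}) :: l) (by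
      intro a ha
      rcases List.mem_cons.1 ha with rfl | ha
      · exact e3
      · exact (h a ha).trans le_self_add)
    push_cast
    rw [← add_assoc]
    exact (rank_lt_of_mem hz).trans_le e4
  | tr s ihs =>
    obtain ⟨c, hc⟩ := ihs
    refine ⟨c, fun T ρ l h => ?_⟩
    simp only [RTerm.eval]
    exact le_trans (rank_mono sep_subset) (hc T ρ l h)

lemma list_bound {γ : Ordinal.{u}} (l : List ZFSet.{u}) (h : ∀ a ∈ l, rank a < γ + ω) :
    ∃ k : ℕ, ∀ a ∈ l, rank a ≤ γ + k := by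
  induction l with
  | nil => exact ⟨0, by simp⟩
  | cons a l ih =>
    obtain ⟨k, hk⟩ := ih fun b hb => h b (List.mem_cons_of_mem _ hb)
    obtain ⟨d, hd, hd2⟩ := (lt_add_iff omega0_ne_zero).1 (h a List.mem_cons_self)
    obtain ⟨n, rfl⟩ := lt_omega0.1 hd
    refine ⟨n + k, fun b hb => ?_⟩
    rcases List.mem_cons.1 hb with rfl | hb
    · refine hd2.trans ?_
      gcongr
      exact Nat.le_add_right _ _
    · refine (hk b hb).trans ?_
      gcongr
      exact Nat.le_add_left _ _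

lemma rank_step {γ : Ordinal.{u}} (T : Set ZFSet.{u}) {x : ZFSet.{u}} (h : ∀ a ∈ x, rank a < γ + ω) :
    ∀ a ∈ rudStep T x, rank a < γ + ω := by
  intro a ha
  unfold rudStep at ha
  rw [ZFSet.mem_range] at ha
  obtain ⟨⟨t, l⟩, rfl⟩ := ha
  obtain ⟨c, hc⟩ := rank_eval.{u} t
  obtain ⟨k, hk⟩ := list_bound (γ := γ) (l.map (fun a : x => (a : ZFSet.{u}))) (by
    intro a ha
    obtain ⟨b, _, rfl⟩ := List.mem_map.1 ha
    exact h _ b.2)
  refine (hc T _ _ hk).trans_lt ?_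
  rw [add_assoc, ← Nat.cast_add]
  gcongr
  exact natCast_lt_omega0 _

lemma rank_cl {γ : Ordinal.{u}} (T : Set ZFSet.{u}) {x : ZFSet.{u}} (h : ∀ a ∈ x, rank a < γ + ω) :
    ∀ a ∈ rudCl T x, rank a < γ + ω := by
  intro a ha
  unfold rudCl at ha
  rw [ZFSet.mem_iUnion] at ha
  obtain ⟨n, hn⟩ := ha
  have key : ∀ n : ℕ, ∀ a ∈ (rudStep T)^[n] x, rank a < γ + ω := by
    intro n
    induction n with
    | zero => simpa using h
    | succ n ih =>
      rw [Function.iterate_succ_apply']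
      exact rank_step T ih
  exact key n a hn

lemma rank_J (ν : Ordinal.{u}) : ∀ x ∈ J ν, rank x < ω * ν := by
  induction ν using limitRecOn with
  | zero =>
    intro x hx
    rw [J_zero] at hx
    exact absurd hx (ZFSet.notMem_empty _)
  | add_one ν ih =>
    rw [J_succ, mul_add_one]
    apply rank_cl
    intro a ha
    have h0 : ω * ν < ω * ν + ω := lt_add_of_pos_right _ omega0_pos
    rw [ZFSet.mem_insert_iff] at ha
    rcases ha with rfl | ha
    · exact (rank_le_iff.2 ih).trans_lt h0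
    · exact (ih a ha).trans h0
  | limit ν hν ih =>
    intro x hx
    rw [mem_J_limit hν] at hx
    obtain ⟨β, hβ, hx⟩ := hx
    refine (ih β hβ x hx).trans_le ?_
    gcongr

/-! ### Terms -/

/-- empty iff the `i`-th variable is transitive -/
def tNT (i : ℕ) : RTerm := .union (.var i) (.diff (.var 0) (.var (i + 1)))

/-- empty iff the first variable is an ordinal -/
def tNO : RTerm := .union (.upair (tNT 0) (.union (.var 0) (tNT 0))) (.var 0)

/-- the set of the ordinals in the first variable -/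
def tOrd : RTerm := .diff (.var 0) (.union (.var 0) (.union tNO (.upair (.var 1) (.var 1))))

/-- `x ∪ {x}` -/
def tSucc : RTerm := .union (.upair (.upair (.var 0) (.var 0)) (.var 0)) (.var 0)

lemma eval_NT (T : Set ZFSet.{u}) (z : ZFSet.{u}) (l : List ZFSet.{u}) :
    (∃ w, w ∈ (tNT 0).eval T (z :: l)) ↔ ¬ z.IsTransitive := by
  unfold tNT
  rw [RTerm.eval]
  constructor
  · rintro ⟨w, hw⟩ ht
    rw [ZFSet.mem_iUnion] at hw
    obtain ⟨⟨y, hy⟩, hw⟩ := hw
    have hy' : y ∈ z := hy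
    rw [RTerm.eval, mem_sdiff] at hw
    have h1 : w ∈ y := hw.1
    have h2 : w ∉ z := hw.2
    exact h2 (ht y hy' h1)
  · intro h
    unfold IsTransitive at h
    push Not at h
    obtain ⟨y, hy, h⟩ := h
    rw [ZFSet.subset_def] at h
    push Not at h
    obtain ⟨w, h1, h2⟩ := h
    refine ⟨w, ?_⟩
    rw [ZFSet.mem_iUnion]
    refine ⟨⟨y, hy⟩, ?_⟩
    rw [RTerm.eval, mem_sdiff]
    exact ⟨h1, h2⟩

lemma eval_NO (T : Set ZFSet.{u}) (z : ZFSet.{u}) (l : List ZFSet.{u}) :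
    (∃ w, w ∈ tNO.eval T (z :: l)) ↔ ¬ z.IsOrdinal := by
  have h1 : (∃ w, w ∈ tNO.eval T (z :: l)) ↔ (∃ w, w ∈ (tNT 0).eval T (z :: l)) ∨
      ∃ y ∈ z, ∃ w, w ∈ (tNT 0).eval T (y :: z :: l) := by
    unfold tNO
    rw [RTerm.eval]
    simp only [ZFSet.mem_iUnion]
    constructor
    · rintro ⟨w, ⟨v, hv⟩, hw⟩
      have hw' : w ∈ v := hw
      rw [RTerm.eval, ZFSet.mem_pair] at hv
      rcases hv with rfl | rfl
      · exact Or.inl ⟨w, hw'⟩
      · rw [RTerm.eval, ZFSet.mem_iUnion] at hw'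
        obtain ⟨⟨y, hy⟩, h⟩ := hw'
        exact Or.inr ⟨y, hy, w, h⟩
    · rintro (⟨w, hw⟩ | ⟨y, hy, w, hw⟩)
      · refine ⟨w, ⟨(tNT 0).eval T (z :: l), ?_⟩, hw⟩
        rw [RTerm.eval, ZFSet.mem_pair]
        exact Or.inl rfl
      · refine ⟨w, ⟨(RTerm.union (.var 0) (tNT 0)).eval T (z :: l), ?_⟩, ?_⟩
        · rw [RTerm.eval, ZFSet.mem_pair]
          exact Or.inr rfl
        · show w ∈ (RTerm.union (.var 0) (tNT 0)).eval T (z :: l)
          rw [RTerm.eval, ZFSet.mem_iUnion]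
          exact ⟨⟨y, hy⟩, hw⟩
  rw [h1, eval_NT, isOrdinal_iff_forall_mem_isTransitive, not_and_or]
  constructor
  · rintro (h | ⟨y, hy, h⟩)
    · exact Or.inl h
    · rw [eval_NT] at h
      exact Or.inr fun h' => h (h' y hy)
  · rintro (h | h)
    · exact Or.inl h
    · push Not at h
      obtain ⟨y, hy, h⟩ := h
      refine Or.inr ⟨y, hy, ?_⟩
      rw [eval_NT]
      exact h

lemma eval_Ord (T : Set ZFSet.{u}) (M z : ZFSet.{u}) :
    z ∈ tOrd.eval T [M] ↔ z ∈ M ∧ z.IsOrdinal := by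
  unfold tOrd
  rw [RTerm.eval, mem_sdiff]
  have h1 : z ∈ (RTerm.var 0).eval T [M] ↔ z ∈ M := Iff.rfl
  rw [h1]
  refine and_congr_right fun hz => ?_
  rw [RTerm.eval, ZFSet.mem_iUnion]
  constructor
  · intro h
    by_contra hn
    apply h
    refine ⟨⟨z, hz⟩, ?_⟩
    rw [RTerm.eval, ZFSet.mem_iUnion]
    obtain ⟨w, hw⟩ := (eval_NO T z [M]).2 hn
    refine ⟨⟨w, hw⟩, ?_⟩
    rw [RTerm.eval, ZFSet.mem_pair]
    exact Or.inl rfl
  · rintro ho ⟨⟨y, hy⟩, h⟩
    rw [RTerm.eval, ZFSet.mem_iUnion] at h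
    obtain ⟨⟨w, hw⟩, h⟩ := h
    rw [RTerm.eval, ZFSet.mem_pair] at h
    have hzy : z = y := by
      rcases h with h | h <;> exact h
    subst hzy
    exact (eval_NO T z [M]).1 ⟨w, hw⟩ ho

lemma eval_Succ (T : Set ZFSet.{u}) (x : ZFSet.{u}) :
    tSucc.eval T [x] = insert x x := by
  ext z
  unfold tSucc
  rw [RTerm.eval, ZFSet.mem_iUnion, ZFSet.mem_insert_iff]
  constructor
  · rintro ⟨⟨v, hv⟩, hz⟩
    have hz' : z ∈ v := hz
    rw [RTerm.eval, ZFSet.mem_pair] at hv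
    rcases hv with rfl | rfl
    · rw [RTerm.eval, ZFSet.mem_pair] at hz'
      left
      rcases hz' with h | h <;> exact h
    · exact Or.inr hz'
  · rintro (rfl | h)
    · refine ⟨⟨(RTerm.upair (.var 0) (.var 0)).eval T [z], ?_⟩, ?_⟩
      · rw [RTerm.eval, ZFSet.mem_pair]
        exact Or.inl rfl
      · show z ∈ (RTerm.upair (.var 0) (.var 0)).eval T [z]
        rw [RTerm.eval, ZFSet.mem_pair]
        exact Or.inl rfl
    · refine ⟨⟨x, ?_⟩, h⟩
      rw [RTerm.eval, ZFSet.mem_pair]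
      exact Or.inr rfl

/-! ### Ordinals in the levels -/

lemma clos (hR : S_RUD.{u}) (ν : Ordinal.{u}) (t : RTerm) (l : List ZFSet.{u})
    (h : ∀ a ∈ l, a ∈ J (ν + 1)) : t.eval (Tr (ν + 1)) l ∈ J (ν + 1) := by
  rw [J_succ] at h ⊢
  exact (hR _ _).2.1 t l h

lemma om_mem (hR : S_RUD.{u}) (ν : Ordinal.{u}) (ih : ∀ α : Ordinal.{u}, α.toZFSet ∈ J ν ↔ α < ω * ν) :
    (ω * ν).toZFSet ∈ J (ν + 1) := by
  have h := clos hR ν tOrd [J ν] (by
    intro a ha
    rw [List.mem_singleton] at ha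
    rw [ha]
    exact J_mem_succ hR ν)
  have e : tOrd.eval (Tr (ν + 1)) [J ν] = (ω * ν).toZFSet := by
    ext z
    rw [eval_Ord, mem_toZFSet_iff]
    constructor
    · rintro ⟨h1, h2⟩
      have e := h2.toZFSet_rank_eq
      rw [← e] at h1
      exact ⟨rank z, (ih _).1 h1, e⟩
    · rintro ⟨a, ha, rfl⟩
      exact ⟨(ih a).2 ha, isOrdinal_toZFSet a⟩
  rw [e] at h
  exact h

lemma ord_mem (hR : S_RUD.{u}) (ν : Ordinal.{u}) : ∀ α : Ordinal.{u}, α.toZFSet ∈ J ν ↔ α < ω * ν := by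
  induction ν using limitRecOn with
  | zero =>
    intro α
    rw [J_zero]
    simp
  | add_one ν ih =>
    intro α
    constructor
    · intro h
      have := rank_J (ν + 1) _ h
      rwa [rank_toZFSet] at this
    · intro h
      have h0 := om_mem hR ν ih
      have hn : ∀ n : ℕ, (ω * ν + n).toZFSet ∈ J (ν + 1) := by
        intro n
        induction n with
        | zero => simpa using h0
        | succ n ihn =>
          have h1 := clos hR ν tSucc [(ω * ν + n).toZFSet] (by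
            intro a ha
            rw [List.mem_singleton] at ha
            rw [ha]
            exact ihn)
          rw [eval_Succ, ← toZFSet_add_one] at h1
          have e : ω * ν + (n : Ordinal.{u}) + 1 = ω * ν + ((n + 1 : ℕ) : Ordinal.{u}) := by
            push_cast
            rw [add_assoc]
          rw [e] at h1
          exact h1
      rw [mul_add_one, lt_add_iff omega0_ne_zero] at h
      obtain ⟨d, hd, h⟩ := h
      obtain ⟨n, rfl⟩ := lt_omega0.1 hd
      rcases h.eq_or_lt with h | h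
      · rw [h]
        exact hn n
      · exact J_trans hR (ν + 1) _ (hn n) (toZFSet_mem_toZFSet_iff.2 h)
  | limit ν hν ih =>
    intro α
    rw [mem_J_limit hν, lt_mul_iff_of_isSuccLimit hν]
    constructor
    · rintro ⟨β, hβ, h⟩
      exact ⟨β, hβ, (ih β hβ α).1 h⟩
    · rintro ⟨β, hβ, h⟩
      exact ⟨β, hβ, (ih β hβ α).2 h⟩

/-! ### Codes -/

lemma code_inj {φ ψ : Fml} (h : (code φ : ZFSet.{u}) = code ψ) : φ = ψ := by
  unfold code nat at h
  have h1 := toZFSet_injective h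
  have h2 : φ.num = ψ.num := by exact_mod_cast h1
  exact Fml.num_injective h2

lemma pair_ne (a b : ZFSet.{u}) : ZFSet.pair a b ≠ ∅ := by
  intro h
  have h1 : ({a} : ZFSet.{u}) ∈ ZFSet.pair a b := by
    unfold ZFSet.pair
    rw [ZFSet.mem_pair]
    exact Or.inl rfl
  rw [h] at h1
  exact ZFSet.notMem_empty _ h1

lemma tup_inj : ∀ l l' : List ZFSet.{u}, tup l = tup l' → l = l'
  | [], [], _ => rfl
  | [], a :: l, h => absurd h.symm (pair_ne _ _)
  | a :: l, [], h => absurd h (pair_ne _ _)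
  | a :: l, b :: l', h => by
    have h1 : ZFSet.pair a (tup l) = ZFSet.pair b (tup l') := h
    rw [ZFSet.pair_inj] at h1
    rw [h1.1, tup_inj l l' h1.2]

lemma trp_inj {α β : Ordinal.{u}} {φ ψ : Fml} {a b : List ZFSet.{u}} (h : trp α φ a = trp β ψ b) :
    α = β ∧ φ = ψ ∧ a = b := by
  unfold trp at h
  rw [ZFSet.pair_inj, ZFSet.pair_inj] at h
  exact ⟨toZFSet_injective h.1, code_inj h.2.1, tup_inj _ _ h.2.2⟩

lemma Tr_form (ν : Ordinal.{u}) : ∀ p ∈ Tr ν, ∃ μ < ν, ∃ (φ : Fml) (a : List ZFSet.{u}),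
    p = trp (ω * μ) φ a := by
  induction ν using limitRecOn with
  | zero =>
    intro p hp
    rw [Tr_zero] at hp
    exact absurd hp (Set.notMem_empty _)
  | add_one ν ih =>
    intro p hp
    rw [Tr_succ] at hp
    rcases hp with hp | ⟨_, φ, a, _, _, rfl⟩
    · obtain ⟨μ, hμ, h⟩ := ih p hp
      exact ⟨μ, hμ.trans (lt_add_one ν), h⟩
    · exact ⟨ν, lt_add_one ν, φ, a, rfl⟩
  | limit ν hν ih =>
    intro p hp
    rw [mem_Tr_limit hν] at hp
    obtain ⟨β, hβ, hp⟩ := hp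
    obtain ⟨μ, hμ, h⟩ := ih β hβ p hp
    exact ⟨μ, hμ.trans hβ, h⟩

end LEV

open LEV in
theorem t_LEV (hR : S_RUD.{u}) (hH : S_HF.{u}) : S_LEV.{u} := by
  refine ⟨J_trans hR, J_mono hR, J_mem_succ hR, clos hR, fun ν => om_mem hR ν (ord_mem hR ν), ?_, ?_⟩
  · intro ν hν
    rw [← hH]
    exact J_mono hR 1 ν (Order.one_le_iff_pos.2 hν)
  · intro ν φ a hν ha
    rw [Tr_succ]
    constructor
    · rintro (h | ⟨_, ψ, b, _, h, e⟩)
      · obtain ⟨μ, hμ, ψ, b, e⟩ := Tr_form ν _ h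
        have h1 := (trp_inj e).1
        have h2 : ω * μ < ω * ν := by gcongr; exact omega0_pos
        rw [h1] at h2
        exact absurd h2 (lt_irrefl _)
      · obtain ⟨_, rfl, rfl⟩ := trp_inj e
        exact h
    · intro h
      exact Or.inr ⟨hν, φ, a, ha, h, rfl⟩

end Pool.Agent.K1H69.CM
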