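import Pool.Agent.K1H69.CM.Sem

/-!
The measure over a level is in the next level, and one level contains all subsets of `ω₁`.
-/

set_option autoImplicit false

universe u

namespace Pool.Agent.K1H69.CM

open Ordinal ZFSet

namespace MEM

/-- the term for the pair -/
def pr (s t : RTerm) : RTerm := .upair (.upair s s) (.upair s t)

theorem eval_pr (T : Set ZFSet.{u}) (s t : RTerm) (l : List ZFSet.{u}) :
    (pr s t).eval T l = ZFSet.pair (s.eval T l) (t.eval T l) := by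
  simp only [pr, RTerm.eval, ZFSet.pair]
  rw [ZFSet.pair_eq_singleton]

theorem nat_mem (n : ℕ) : (nat n : ZFSet.{u}) ∈ V_ (ω : Ordinal.{u}) := by
  rw [ZFSet.mem_vonNeumann, nat, Ordinal.rank_toZFSet]
  exact Ordinal.natCast_lt_omega0 n

/-- the term for the measure; the arguments are `J ν`, `α`, `k`, `c` -/
def tm : RTerm :=
  .union (.var 0)
    (.union (.tr (.upair (pr (.var 2) (pr (.var 3) (pr (.var 0) (.var 4))))
      (pr (.var 2) (pr (.var 3) (pr (.var 0) (.var 4)))))) (.upair (.var 1) (.var 1)))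

theorem mem_union (T : Set ZFSet.{u}) (s t : RTerm) (l : List ZFSet.{u}) (X : ZFSet.{u}) :
    X ∈ (RTerm.union s t).eval T l ↔ ∃ z ∈ s.eval T l, X ∈ t.eval T (z :: l) := by
  rw [RTerm.eval, ZFSet.mem_iUnion]
  constructor
  · rintro ⟨⟨z, hz⟩, h⟩
    exact ⟨z, hz, h⟩
  · rintro ⟨z, hz, h⟩
    exact ⟨⟨z, hz⟩, h⟩

theorem mem_trm (T : Set ZFSet.{u}) (s : RTerm) (l : List ZFSet.{u}) (X : ZFSet.{u}) :
    X ∈ (RTerm.tr s).eval T l ↔ X ∈ s.eval T l ∧ X ∈ T := by
  rw [RTerm.eval, ZFSet.mem_sep]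

theorem mem_dbl (T : Set ZFSet.{u}) (s : RTerm) (l : List ZFSet.{u}) (X : ZFSet.{u}) :
    X ∈ (RTerm.upair s s).eval T l ↔ X = s.eval T l := by
  rw [RTerm.eval, ZFSet.pair_eq_singleton, ZFSet.mem_singleton]

theorem mem_tm (T : Set ZFSet.{u}) (M α k c X : ZFSet.{u}) :
    X ∈ tm.eval T [M, α, k, c] ↔
      X ∈ M ∧ ZFSet.pair α (ZFSet.pair k (ZFSet.pair X c)) ∈ T := by
  rw [tm, mem_union]
  have h0 : (RTerm.var 0).eval T [M, α, k, c] = M := rfl
  rw [h0]
  have hP : ∀ z : ZFSet.{u}, (pr (.var 2) (pr (.var 3) (pr (.var 0) (.var 4)))).eval T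
      [z, M, α, k, c] = ZFSet.pair α (ZFSet.pair k (ZFSet.pair z c)) := by
    intro z
    rw [eval_pr, eval_pr, eval_pr]
    rfl
  constructor
  · rintro ⟨z, hz, h⟩
    rw [mem_union] at h
    obtain ⟨w, hw, h⟩ := h
    rw [mem_trm, mem_dbl, hP] at hw
    rw [mem_dbl] at h
    have h' : X = z := h
    subst h'
    refine ⟨hz, ?_⟩
    rw [← hw.1]
    exact hw.2
  · rintro ⟨h1, h2⟩
    refine ⟨X, h1, ?_⟩
    rw [mem_union]
    refine ⟨ZFSet.pair α (ZFSet.pair k (ZFSet.pair X c)), ?_, ?_⟩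
    · rw [mem_trm, mem_dbl, hP]
      exact ⟨rfl, h2⟩
    · rw [mem_dbl]
      rfl

end MEM

open MEM

theorem t_MEM (hD : S_DEF.{u}) (hL : S_LEV.{u}) : S_MEM.{u} := by
  obtain ⟨-, hmono, hin, hterm, hord, hV, htr⟩ := hL
  intro ν hν hB
  obtain ⟨⟨φ, hφ⟩, -⟩ := hD (J ν) (Tr ν) hB
  have hsub : J ν ⊆ J (ν + 1) := hmono ν (ν + 1) (le_add_of_nonneg_right zero_le_one)
  have hpair : ∀ x ∈ J (ν + 1), ∀ y ∈ J (ν + 1), ZFSet.pair x y ∈ J (ν + 1) := by
    intro x hx y hy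
    have := hterm ν (pr (.var 0) (.var 1)) [x, y] (by
      intro a ha
      simp only [List.mem_cons, List.not_mem_nil, or_false] at ha
      rcases ha with rfl | rfl
      · exact hx
      · exact hy)
    rw [eval_pr] at this
    simpa [RTerm.eval] using this
  have hemp : (∅ : ZFSet.{u}) ∈ J (ν + 1) := by
    have := hterm ν (.var 0) [] (by simp)
    simpa [RTerm.eval] using this
  set c : ZFSet.{u} := tup [V_ (ω : Ordinal.{u}), om, Om] with hc
  have hcm : c ∈ J (ν + 1) := by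
    simp only [hc, tup]
    exact hpair _ (hsub hB.W) _ (hpair _ (hsub hB.om) _ (hpair _ (hsub hB.Om) _ hemp))
  have hk : code φ ∈ J (ν + 1) := hsub (hV ν hν (nat_mem _))
  refine ⟨tm.eval (Tr (ν + 1)) [J ν, (ω * ν).toZFSet, code φ, c], ?_, ?_⟩
  · apply hterm
    intro a ha
    simp only [List.mem_cons, List.not_mem_nil, or_false] at ha
    rcases ha with rfl | rfl | rfl | rfl
    · exact hin ν
    · exact hord ν
    · exact hk
    · exact hcm
  · intro X
    rw [mem_tm]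
    refine and_congr_right fun hX => ?_
    rw [← hφ X hX, ← htr ν φ [X, V_ (ω : Ordinal.{u}), om, Om] hν (by
      intro a ha
      simp only [List.mem_cons, List.not_mem_nil, or_false] at ha
      rcases ha with rfl | rfl | rfl | rfl
      · exact hX
      · exact hB.W
      · exact hB.om
      · exact hB.Om)]
    rfl

theorem t_SUP (hH : S_HF.{u}) (hL : S_LEV.{u}) : S_SUP.{u} := by
  classical
  obtain ⟨htr, hmono, hin, -, hord, -, -⟩ := hL
  let f : (ZFSet.powerset (Om : ZFSet.{u})) → Ordinal.{u} := fun p =>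
    if h : ∃ ν : Ordinal.{u}, (p : ZFSet.{u}) ∈ J ν then h.choose else 0
  obtain ⟨μ, hμ⟩ : BddAbove (Set.range f) := Ordinal.bddAbove_of_small
  set ν : Ordinal.{u} := max μ (ω_ 1 + 1 + 1) with hνd
  have h2 : (1 + 1 : Ordinal.{u}) ≤ ν := by
    refine le_trans ?_ (le_max_right _ _)
    have : (1 : Ordinal.{u}) ≤ ω_ 1 + 1 := le_add_of_nonneg_left zero_le
    exact add_le_add_left this 1
  have hpos : 0 < ν := lt_of_lt_of_le (by norm_num) h2
  refine ⟨ν, hpos, ⟨htr ν, ?_, ?_, ?_⟩, ?_⟩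
  · have := hin 1
    rw [hH] at this
    exact hmono _ _ h2 this
  · have := hord 1
    rw [mul_one] at this
    exact hmono _ _ h2 this
  · have h1 := hmono _ _ (le_max_right μ (ω_ 1 + 1 + 1)) (hord (ω_ 1 + 1))
    refine (htr ν).mem_trans (y := (ω * (ω_ 1 + 1)).toZFSet) ?_ h1
    rw [Om, toZFSet_mem_toZFSet_iff]
    calc (ω_ 1 : Ordinal.{u}) < ω_ 1 + 1 := lt_add_one _
      _ = 1 * (ω_ 1 + 1) := (one_mul _).symm
      _ ≤ ω * (ω_ 1 + 1) := mul_le_mul_left (Ordinal.one_lt_omega0.le) _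
  · intro X hX hXO
    have hp : X ∈ ZFSet.powerset (Om : ZFSet.{u}) := ZFSet.mem_powerset.2 hXO
    have hex : ∃ ν : Ordinal.{u}, X ∈ J ν := hX
    have h1 : f ⟨X, hp⟩ ≤ μ := hμ ⟨_, rfl⟩
    have h3 : X ∈ J (f ⟨X, hp⟩) := by
      have : f ⟨X, hp⟩ = hex.choose := dif_pos hex
      rw [this]
      exact hex.choose_spec
    exact hmono _ _ (h1.trans (le_max_left _ _)) h3

end Pool.Agent.K1H69.CM
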