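import Pool.Agent.K1H69.CM.Sem

/-!
# PLY: strategies as relations on `V_ω`
-/

set_option autoImplicit false

universe u

namespace Pool.Agent.K1H69.CM

open Ordinal ZFSet

namespace PLY

theorem nat_inj {m n : ℕ} (h : (nat m : ZFSet.{u}) = nat n) : m = n := by
  have := Ordinal.toZFSet_injective h
  exact_mod_cast this

theorem mem_nat {m : ℕ} {x : ZFSet.{u}} : x ∈ (nat m : ZFSet.{u}) ↔ ∃ k < m, x = nat k := by
  unfold nat
  rw [mem_toZFSet_iff]
  constructor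
  · rintro ⟨a, ha, rfl⟩
    obtain ⟨k, rfl⟩ := Ordinal.lt_omega0.1 (ha.trans (Ordinal.natCast_lt_omega0 m))
    exact ⟨k, by exact_mod_cast ha, rfl⟩
  · rintro ⟨k, hk, rfl⟩
    exact ⟨k, by exact_mod_cast hk, rfl⟩

theorem nat_W (n : ℕ) : (nat n : ZFSet.{u}) ∈ V_ (ω : Ordinal.{u}) := by
  rw [mem_vonNeumann]
  unfold nat
  rw [rank_toZFSet]
  exact Ordinal.natCast_lt_omega0 n

theorem pair_W {a b : ZFSet.{u}} (ha : a ∈ V_ (ω : Ordinal.{u})) (hb : b ∈ V_ (ω : Ordinal.{u})) :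
    pair a b ∈ V_ (ω : Ordinal.{u}) := by
  rw [mem_vonNeumann] at *
  obtain ⟨m, hm⟩ := Ordinal.lt_omega0.1 ha
  obtain ⟨n, hn⟩ := Ordinal.lt_omega0.1 hb
  have h : rank (pair a b) ≤ ((max m n + 2 : ℕ) : Ordinal.{u}) := by
    unfold pair
    rw [rank_pair, rank_singleton, rank_pair, hm, hn]
    simp only [Order.succ_eq_add_one]
    refine max_le ?_ ?_
    · exact_mod_cast (by omega : m + 1 + 1 ≤ max m n + 2)
    · have : max ((m : Ordinal.{u}) + 1) ((n : Ordinal.{u}) + 1) ≤ ((max m n + 1 : ℕ) : Ordinal.{u}) :=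
        max_le (by exact_mod_cast (by omega : m + 1 ≤ max m n + 1))
          (by exact_mod_cast (by omega : n + 1 ≤ max m n + 1))
      calc max ((m : Ordinal.{u}) + 1) ((n : Ordinal.{u}) + 1) + 1
          ≤ ((max m n + 1 : ℕ) : Ordinal.{u}) + 1 := by gcongr
        _ = ((max m n + 2 : ℕ) : Ordinal.{u}) := by norm_cast
  exact h.trans_lt (Ordinal.natCast_lt_omega0 _)

/-- the finite sequence `y 0, ..., y (m - 1)` as a set of pairs -/
noncomputable def hs (y : ℕ → V_ (ω : Ordinal.{u})) (m : ℕ) : ZFSet.{u} :=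
  ZFSet.range (fun k : Fin m => pair (nat k) (y k : ZFSet.{u}))

theorem mem_hs {y : ℕ → V_ (ω : Ordinal.{u})} {m : ℕ} {p : ZFSet.{u}} :
    p ∈ hs y m ↔ ∃ k < m, p = pair (nat k) (y k : ZFSet.{u}) := by
  unfold hs
  rw [ZFSet.mem_range]
  constructor
  · rintro ⟨k, rfl⟩
    exact ⟨k, k.2, rfl⟩
  · rintro ⟨k, hk, rfl⟩
    exact ⟨⟨k, hk⟩, rfl⟩

theorem hs_W (y : ℕ → V_ (ω : Ordinal.{u})) (m : ℕ) : hs y m ∈ V_ (ω : Ordinal.{u}) := by
  have h1 : ∀ k : ℕ, ∃ n : ℕ, rank (pair (nat k) (y k : ZFSet.{u})) = n := fun k =>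
    Ordinal.lt_omega0.1 (mem_vonNeumann.1 (pair_W (nat_W k) (y k).2))
  choose g hg using h1
  have h2 : rank (hs y m) ≤ (((Finset.range m).sup g + 1 : ℕ) : Ordinal.{u}) := by
    rw [rank_le_iff]
    intro p hp
    obtain ⟨k, hk, rfl⟩ := mem_hs.1 hp
    rw [hg k]
    have : g k ≤ (Finset.range m).sup g := Finset.le_sup (Finset.mem_range.2 hk)
    exact_mod_cast Nat.lt_succ_of_le this
  rw [mem_vonNeumann]
  exact h2.trans_lt (Ordinal.natCast_lt_omega0 _)

theorem hs_aux {y y' : ℕ → V_ (ω : Ordinal.{u})} {m m' : ℕ} (h : hs y' m' = hs y m) :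
    ∀ i < m', i < m ∧ y' i = y i := by
  intro i hi
  have h1 : pair (nat i) (y' i : ZFSet.{u}) ∈ hs y m := h ▸ mem_hs.2 ⟨i, hi, rfl⟩
  obtain ⟨k, hk, e⟩ := mem_hs.1 h1
  rw [ZFSet.pair_inj] at e
  obtain rfl := nat_inj e.1
  exact ⟨hk, Subtype.ext e.2⟩

theorem hs_inj {y y' : ℕ → V_ (ω : Ordinal.{u})} {m m' : ℕ} (h : hs y' m' = hs y m) :
    List.ofFn (fun i : Fin m' => y' i) = List.ofFn (fun i : Fin m => y i) := by
  have hm : m' = m := by
    apply le_antisymm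
    · by_contra hc
      exact absurd (hs_aux h m (not_le.1 hc)).1 (lt_irrefl _)
    · by_contra hc
      exact absurd (hs_aux h.symm m' (not_le.1 hc)).1 (lt_irrefl _)
  subst hm
  congr 1
  funext i
  exact (hs_aux h i i.2).2

end PLY

open PLY

theorem t_PLY : S_PLY.{u} := by
  intro M hM e σ
  have hWM : ∀ x ∈ V_ (ω : Ordinal.{u}), x ∈ M := fun x hx => hM.tr _ hM.W hx
  refine ⟨{q | ∃ (y : ℕ → V_ (ω : Ordinal.{u})) (m : ℕ),
    q = [hs y m, (σ (List.ofFn (fun i : Fin m => y i)) : ZFSet.{u})]}, ?_, ?_⟩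
  · rintro q ⟨y, m, rfl⟩
    exact ⟨_, hs_W y m, _, (σ _).2, rfl⟩
  intro y n hn v hv
  have hH : ∀ j : ℕ, ∀ s ∈ M, Hist M e (b2 (gr y)) (nat j) s ↔ s = hs y (j + e.toNat) := by
    intro j s hs'
    have key : ∀ p : ZFSet.{u}, (∃ k ∈ M, ∃ w ∈ M, (k ∈ nat j ∨ (e = true ∧ k = nat j)) ∧
        b2 (gr y) k w ∧ p = pair k w) ↔ p ∈ hs y (j + e.toNat) := by
      intro p
      rw [mem_hs]
      constructor
      · rintro ⟨k, hk, w, hw, h1, ⟨i, h2⟩, rfl⟩
        simp only [List.cons.injEq, and_true] at h2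
        obtain ⟨rfl, rfl⟩ := h2
        refine ⟨i, ?_, rfl⟩
        rcases h1 with h1 | ⟨h1, h3⟩
        · obtain ⟨k, hk, e1⟩ := mem_nat.1 h1
          have := nat_inj e1
          omega
        · have := nat_inj h3
          subst this
          rw [h1]
          simp
      · rintro ⟨i, hi, rfl⟩
        refine ⟨nat i, hWM _ (nat_W i), y i, hWM _ (y i).2, ?_, ⟨i, rfl⟩, rfl⟩
        by_cases h : i < j
        · exact Or.inl (mem_nat.2 ⟨i, h, rfl⟩)
        · right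
          cases e with
          | false => simp at hi; omega
          | true =>
            simp at hi
            exact ⟨rfl, by rw [show i = j by omega]⟩
    constructor
    · intro h
      ext p
      rw [← key p]
      constructor
      · intro hp
        exact (h p (hM.tr _ hs' hp)).1 hp
      · intro hp
        refine (h p ?_).2 hp
        obtain ⟨k, hk, w, hw, h1, ⟨i, h2⟩, rfl⟩ := hp
        simp only [List.cons.injEq, and_true] at h2
        obtain ⟨rfl, rfl⟩ := h2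
        exact hWM _ (pair_W (nat_W i) (y i).2)
    · rintro rfl p hp
      rw [key p]
  constructor
  · rintro ⟨⟨w, hw, ⟨j, h1⟩⟩, s, hs', h2, ⟨y', m', h3⟩⟩
    simp only [List.cons.injEq, and_true] at h1 h3
    obtain ⟨rfl, rfl⟩ := h1
    obtain ⟨rfl, rfl⟩ := h3
    have h4 := (hH j _ hs').1 h2
    refine ⟨j, ?_⟩
    rw [hs_inj h4]
  · rintro ⟨j, h1⟩
    simp only [List.cons.injEq, and_true] at h1
    obtain ⟨rfl, rfl⟩ := h1
    refine ⟨⟨y j, hWM _ (y j).2, j, rfl⟩, hs y (j + e.toNat), hWM _ (hs_W _ _), ?_, ⟨y, _, rfl⟩⟩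
    exact (hH j _ (hWM _ (hs_W _ _))).2 rfl

end Pool.Agent.K1H69.CM
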