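import Pool.Agent.K1H69.CM.Sem

/-!
# The closure under rudimentary functions is closed, increasing and transitive
-/

set_option autoImplicit false

universe u

namespace Pool.Agent.K1H69.CM

open Ordinal ZFSet

namespace RUD

variable {T : Set ZFSet.{u}} {x : ZFSet.{u}}

theorem step_mem {y : ZFSet.{u}} (t : RTerm) (l : List ZFSet.{u}) (h : ∀ a ∈ l, a ∈ y) :
    t.eval T l ∈ rudStep T y := by
  lift l to List {a // a ∈ y} using h
  exact ZFSet.mem_range.2 ⟨(t, l), rfl⟩

theorem of_step_mem {y a : ZFSet.{u}} (h : a ∈ rudStep T y) :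
    ∃ (t : RTerm) (l : List ZFSet.{u}), (∀ b ∈ l, b ∈ y) ∧ a = t.eval T l := by
  obtain ⟨⟨t, l⟩, rfl⟩ := ZFSet.mem_range.1 h
  refine ⟨t, l.map (fun a : y => (a : ZFSet.{u})), ?_, rfl⟩
  intro b hb
  obtain ⟨c, _, rfl⟩ := List.mem_map.1 hb
  exact c.2

theorem sub_step (y : ZFSet.{u}) : y ⊆ rudStep T y := by
  intro a ha
  have := step_mem (T := T) (y := y) (RTerm.var 0) [a] (by simpa using ha)
  simpa [RTerm.eval] using this

theorem iter_succ (n : ℕ) : (rudStep T)^[n + 1] x = rudStep T ((rudStep T)^[n] x) :=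
  Function.iterate_succ_apply' _ _ _

theorem iter_mono {n m : ℕ} (h : n ≤ m) : (rudStep T)^[n] x ⊆ (rudStep T)^[m] x := by
  induction m, h using Nat.le_induction with
  | base => exact fun _ h => h
  | succ m _ ih =>
    rw [iter_succ]
    exact fun a ha => sub_step _ (ih ha)

theorem mem_cl {a : ZFSet.{u}} : a ∈ rudCl T x ↔ ∃ n : ℕ, a ∈ (rudStep T)^[n] x := by
  simp only [rudCl, ZFSet.mem_iUnion]

theorem list_mem : ∀ (l : List ZFSet.{u}), (∀ a ∈ l, a ∈ rudCl T x) →
    ∃ n : ℕ, ∀ a ∈ l, a ∈ (rudStep T)^[n] x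
  | [], _ => ⟨0, by simp⟩
  | a :: l, h => by
    obtain ⟨n, hn⟩ := mem_cl.1 (h a (by simp))
    obtain ⟨m, hm⟩ := list_mem l (fun b hb => h b (by simp [hb]))
    refine ⟨max n m, fun b hb => ?_⟩
    rcases List.mem_cons.1 hb with rfl | hb
    · exact iter_mono (le_max_left _ _) hn
    · exact iter_mono (le_max_right _ _) (hm b hb)

theorem closed (t : RTerm) (l : List ZFSet.{u}) (h : ∀ a ∈ l, a ∈ rudCl T x) :
    t.eval T l ∈ rudCl T x := by
  obtain ⟨n, hn⟩ := list_mem l h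
  refine mem_cl.2 ⟨n + 1, ?_⟩
  rw [iter_succ]
  exact step_mem t l hn

theorem sub_cl : x ⊆ rudCl T x := fun _ ha => mem_cl.2 ⟨0, ha⟩

theorem empty_mem : (∅ : ZFSet.{u}) ∈ rudCl T x := by
  have := closed (T := T) (x := x) (RTerm.var 0) [] (by simp)
  simpa [RTerm.eval] using this

/-- hereditarily in the closure -/
def H (T : Set ZFSet.{u}) (x : ZFSet.{u}) (a : ZFSet.{u}) : Prop :=
  ZFSet.Hereditarily (fun b => b ∈ rudCl T x) a

theorem H.iff {a : ZFSet.{u}} : H T x a ↔ a ∈ rudCl T x ∧ ∀ y ∈ a, H T x y :=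
  ZFSet.hereditarily_iff

theorem H_base (hx : x.IsTransitive) : ∀ a : ZFSet.{u}, a ∈ x → H T x a := by
  intro a
  induction a using ZFSet.inductionOn with
  | _ a ih =>
    intro ha
    exact H.iff.2 ⟨sub_cl ha, fun y hy => ih y hy (hx.mem_trans hy ha)⟩

theorem H_empty : H T x ∅ :=
  H.iff.2 ⟨empty_mem, fun y hy => absurd hy (ZFSet.notMem_empty y)⟩

theorem H_eval (t : RTerm) : ∀ l : List ZFSet.{u}, (∀ a ∈ l, H T x a) → H T x (t.eval T l) := by
  induction t with
  | var i =>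
    intro l hl
    simp only [RTerm.eval]
    by_cases hi : i < l.length
    · rw [List.getD_eq_getElem _ _ hi]
      exact hl _ (List.getElem_mem hi)
    · rw [List.getD_eq_default _ _ (not_lt.1 hi)]
      exact H_empty
  | diff s t ihs iht =>
    intro l hl
    refine H.iff.2 ⟨closed _ l fun a ha => (H.iff.1 (hl a ha)).1, fun y hy => ?_⟩
    simp only [RTerm.eval, ZFSet.mem_sdiff] at hy
    exact (H.iff.1 (ihs l hl)).2 y hy.1
  | upair s t ihs iht =>
    intro l hl
    refine H.iff.2 ⟨closed _ l fun a ha => (H.iff.1 (hl a ha)).1, fun y hy => ?_⟩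
    simp only [RTerm.eval, ZFSet.mem_pair] at hy
    rcases hy with rfl | rfl
    · exact ihs l hl
    · exact iht l hl
  | union s t ihs iht =>
    intro l hl
    refine H.iff.2 ⟨closed _ l fun a ha => (H.iff.1 (hl a ha)).1, fun y hy => ?_⟩
    simp only [RTerm.eval, ZFSet.mem_iUnion] at hy
    obtain ⟨z, hz⟩ := hy
    have hzH : H T x z := (H.iff.1 (ihs l hl)).2 _ z.2
    refine (H.iff.1 (iht ((z : ZFSet.{u}) :: l) fun a ha => ?_)).2 y hz
    rcases List.mem_cons.1 ha with rfl | ha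
    · exact hzH
    · exact hl a ha
  | tr s ihs =>
    intro l hl
    refine H.iff.2 ⟨closed _ l fun a ha => (H.iff.1 (hl a ha)).1, fun y hy => ?_⟩
    simp only [RTerm.eval, ZFSet.mem_sep] at hy
    exact (H.iff.1 (ihs l hl)).2 y hy.1

theorem H_iter (hx : x.IsTransitive) : ∀ n : ℕ, ∀ a ∈ (rudStep T)^[n] x, H T x a := by
  intro n
  induction n with
  | zero => exact fun a ha => H_base hx a ha
  | succ n ih =>
    intro a ha
    rw [iter_succ] at ha
    obtain ⟨t, l, hl, rfl⟩ := of_step_mem ha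
    exact H_eval t l fun b hb => ih b (hl b hb)

theorem trans (hx : x.IsTransitive) : (rudCl T x).IsTransitive := by
  intro a ha
  obtain ⟨n, hn⟩ := mem_cl.1 ha
  exact fun y hy => (H.iff.1 ((H.iff.1 (H_iter hx n a hn)).2 y hy)).1

end RUD

theorem t_RUD : S_RUD.{u} := fun _ _ =>
  ⟨RUD.sub_cl, RUD.closed, RUD.empty_mem, RUD.trans⟩

end Pool.Agent.K1H69.CM
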