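import Pool.Agent.K1H69.CM.Def

/-!
# The measure over a level: semantic definitions and the statements of the pieces
-/

set_option autoImplicit false

universe u

namespace Pool.Agent.K1H69.CM

open Ordinal ZFSet

/-- `ω` as a set -/
noncomputable def om : ZFSet.{u} := (ω : Ordinal.{u}).toZFSet

/-- binary relation of a set of lists -/
def b2 (Q : Set (List ZFSet.{u})) (a b : ZFSet.{u}) : Prop := [a, b] ∈ Q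

/-- what we need of the level -/
structure Base (M : ZFSet.{u}) : Prop where
  tr : M.IsTransitive
  W : V_ (ω : Ordinal.{u}) ∈ M
  om : (om : ZFSet.{u}) ∈ M
  Om : (Om : ZFSet.{u}) ∈ M

/-- `s = {(k, w) | k < n (or k ≤ n if e), B k w}` -/
def Hist (M : ZFSet.{u}) (e : Bool) (B : ZFSet.{u} → ZFSet.{u} → Prop) (n s : ZFSet.{u}) : Prop :=
  ∀ p ∈ M, (p ∈ s ↔ ∃ k ∈ M, ∃ w ∈ M, (k ∈ n ∨ (e = true ∧ k = n)) ∧ B k w ∧ p = pair k w)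

/-- first operation: decoding -/
def Dec (M : ZFSet.{u}) (A : ZFSet.{u} → ZFSet.{u} → Prop) (c a b : ZFSet.{u}) : Prop :=
  ∃ n ∈ M, ∃ v ∈ M, A n v ∧ ∃ p ∈ M, p = pair a b ∧ v = pair c p

/-- second operation: playing the strategy `A` against `B` -/
def Play (M : ZFSet.{u}) (e : Bool) (A B : ZFSet.{u} → ZFSet.{u} → Prop) (n v : ZFSet.{u}) : Prop :=
  (∃ w ∈ M, B n w) ∧ ∃ s ∈ M, Hist M e B n s ∧ A s v

/-- the family of binary relations `F_i = {(a, b) | (i, a, b) ∈ F}`, `i ∈ V_ω`, on `V_ω` is closed under the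
operations -/
def Closed (M : ZFSet.{u}) (F : Set (List ZFSet.{u})) : Prop :=
  (∀ i ∈ M, ∀ a ∈ M, ∀ b ∈ M, [i, a, b] ∈ F → i ∈ V_ (ω : Ordinal.{u}) ∧ a ∈ V_ (ω : Ordinal.{u}) ∧
    b ∈ V_ (ω : Ordinal.{u})) ∧
  (∀ i ∈ M, i ∈ V_ (ω : Ordinal.{u}) → ∀ c ∈ M, c ∈ V_ (ω : Ordinal.{u}) → ∃ j ∈ M, j ∈ V_ (ω : Ordinal.{u}) ∧
    ∀ a ∈ M, ∀ b ∈ M, ([j, a, b] ∈ F ↔ Dec M (fun n v => [i, n, v] ∈ F) c a b)) ∧
  (∀ e : Bool, ∀ i ∈ M, i ∈ V_ (ω : Ordinal.{u}) → ∀ i' ∈ M, i' ∈ V_ (ω : Ordinal.{u}) →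
    ∃ j ∈ M, j ∈ V_ (ω : Ordinal.{u}) ∧ ∀ n ∈ M, ∀ v ∈ M,
      ([j, n, v] ∈ F ↔ Play M e (fun n v => [i, n, v] ∈ F) (fun n v => [i', n, v] ∈ F) n v))

/-- `Y` is a member of the family `F` -/
def InF (M : ZFSet.{u}) (F : Set (List ZFSet.{u})) (Y : ZFSet.{u} → ZFSet.{u} → Prop) : Prop :=
  ∃ i ∈ M, i ∈ V_ (ω : Ordinal.{u}) ∧ ∀ a ∈ M, ∀ b ∈ M, ([i, a, b] ∈ F ↔ Y a b)

/-- `R` is generated by `Y0` and `Y1` -/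
def Gen (M : ZFSet.{u}) (Y0 Y1 R : ZFSet.{u} → ZFSet.{u} → Prop) : Prop :=
  ∀ F : Set (List ZFSet.{u}), IsRel M 3 F → Closed M F → InF M F Y0 → InF M F Y1 → InF M F R

/-- `g` is a partial collapse of the relation `R` -/
def Good (M : ZFSet.{u}) (R : ZFSet.{u} → ZFSet.{u} → Prop) (g : Set (List ZFSet.{u})) : Prop :=
  ∀ a ∈ M, ∀ v ∈ M, [a, v] ∈ g → a ∈ V_ (ω : Ordinal.{u}) ∧ (∀ b ∈ M, R b a → ∃ t ∈ M, [b, t] ∈ g) ∧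
    ∀ t ∈ M, (t ∈ v ↔ ∃ b ∈ M, R b a ∧ [b, t] ∈ g)

/-- `β` is a value of a partial collapse of `R` -/
def Col (M : ZFSet.{u}) (R : ZFSet.{u} → ZFSet.{u} → Prop) (β : ZFSet.{u}) : Prop :=
  ∃ g : Set (List ZFSet.{u}), IsRel M 2 g ∧ Good M R g ∧ ∃ a ∈ M, [a, β] ∈ g

/-- `β` is coded by a relation generated by `Y0` and `Y1` -/
def Fv (M : ZFSet.{u}) (Y0 Y1 : ZFSet.{u} → ZFSet.{u} → Prop) (β : ZFSet.{u}) : Prop :=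
  ∃ R : Set (List ZFSet.{u}), IsRel M 2 R ∧ Gen M Y0 Y1 (b2 R) ∧ Col M (b2 R) β

/-- the ordinal of all countable ordinals coded by relations generated by `Y0` and `Y1` is in `X` -/
def Out (M : ZFSet.{u}) (Y0 Y1 : ZFSet.{u} → ZFSet.{u} → Prop) (X : ZFSet.{u}) : Prop :=
  ∃ γ ∈ M, γ ∈ X ∧ ∀ β ∈ M, (β ∈ γ ↔ β ∈ (Om : ZFSet.{u}) ∧ Fv M Y0 Y1 β)

/-- `Y` is the graph of a sequence of hereditarily finite sets -/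
def Run (M : ZFSet.{u}) (Y : Set (List ZFSet.{u})) : Prop :=
  (∀ n ∈ M, ∀ v ∈ M, [n, v] ∈ Y → n ∈ (om : ZFSet.{u}) ∧ v ∈ V_ (ω : Ordinal.{u})) ∧
  (∀ n ∈ M, n ∈ (om : ZFSet.{u}) → ∃ v ∈ M, [n, v] ∈ Y) ∧
  (∀ n ∈ M, ∀ v ∈ M, ∀ v' ∈ M, [n, v] ∈ Y → [n, v'] ∈ Y → v = v')

/-- `X` is in the measure -/
def InU (M : ZFSet.{u}) (X : ZFSet.{u}) : Prop :=
  (∀ β ∈ M, β ∈ X → β ∈ (Om : ZFSet.{u})) ∧
  ∃ B : Set (List ZFSet.{u}), IsRel M 2 B ∧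
    (∀ a ∈ M, ∀ b ∈ M, [a, b] ∈ B → a ∈ V_ (ω : Ordinal.{u}) ∧ b ∈ V_ (ω : Ordinal.{u})) ∧
    ∀ Y : Set (List ZFSet.{u}), IsRel M 2 Y → Run M Y → Gen M (b2 Y) (b2 Y) (b2 B) → Out M (b2 Y) (b2 Y) X

/-- `B` is a relation on `V_ω` (as a set of lists) -/
def OnW (B : Set (List ZFSet.{u})) : Prop :=
  ∀ q ∈ B, ∃ a ∈ V_ (ω : Ordinal.{u}), ∃ b ∈ V_ (ω : Ordinal.{u}), q = [a, b]

/-! ### The pieces -/

/-- RUD: the closure is closed, increasing and transitive -/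
def S_RUD : Prop := ∀ (T : Set ZFSet.{u}) (x : ZFSet.{u}),
  x ⊆ rudCl T x ∧
  (∀ (t : RTerm) (l : List ZFSet.{u}), (∀ a ∈ l, a ∈ rudCl T x) → t.eval T l ∈ rudCl T x) ∧
  (∅ : ZFSet.{u}) ∈ rudCl T x ∧
  (x.IsTransitive → (rudCl T x).IsTransitive)

/-- HF: the first level is `V_ω` -/
def S_HF : Prop := (J 1 : ZFSet.{u}) = V_ (ω : Ordinal.{u})

/-- LEV: the levels -/
def S_LEV : Prop :=
  (∀ ν : Ordinal.{u}, (J ν).IsTransitive) ∧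
  (∀ μ ν : Ordinal.{u}, μ ≤ ν → J μ ⊆ J ν) ∧
  (∀ ν : Ordinal.{u}, J ν ∈ J (ν + 1)) ∧
  (∀ (ν : Ordinal.{u}) (t : RTerm) (l : List ZFSet.{u}), (∀ a ∈ l, a ∈ J (ν + 1)) →
    t.eval (Tr (ν + 1)) l ∈ J (ν + 1)) ∧
  (∀ ν : Ordinal.{u}, (ω * ν).toZFSet ∈ J (ν + 1)) ∧
  (∀ ν : Ordinal.{u}, 0 < ν → V_ (ω : Ordinal.{u}) ⊆ J ν) ∧
  (∀ (ν : Ordinal.{u}) (φ : Fml) (a : List ZFSet.{u}), 0 < ν → (∀ x ∈ a, x ∈ J ν) →
    (trp (ω * ν) φ a ∈ (Tr (ν + 1) : Set ZFSet.{u}) ↔ Sat (J ν) (Tr ν) φ (env a) (fun _ => ∅)))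

/-- DEF: definability of the measure and of the payoff sets -/
def S_DEF : Prop := ∀ (M : ZFSet.{u}) (T : Set ZFSet.{u}), Base M →
  (∃ φ : Fml, ∀ X ∈ M, (Sat M T φ (env [X, V_ (ω : Ordinal.{u}), om, Om]) (fun _ => ∅) ↔ InU M X)) ∧
  (∃ φ : Fml, ∀ X ∈ M, ∀ Y0 Y1 : Set (List ZFSet.{u}), IsRel M 2 Y0 → IsRel M 2 Y1 →
    (Sat M T φ (env [X, V_ (ω : Ordinal.{u}), om, Om]) (cons Y0 (cons Y1 (fun _ => ∅))) ↔
      Out M (b2 Y0) (b2 Y1) X))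

/-- FAM: a countable closed family with two given members -/
def S_FAM : Prop := ∀ (M : ZFSet.{u}), Base M → ∀ Y0 Y1 : Set (List ZFSet.{u}), OnW Y0 → OnW Y1 →
  ∃ F : Set (List ZFSet.{u}), IsRel M 3 F ∧ Closed M F ∧ InF M F (b2 Y0) ∧ InF M F (b2 Y1)

/-- COL: values of collapses are determined by the relation and the point -/
def S_COL : Prop := ∀ (M : ZFSet.{u}), Base M → ∀ R : ZFSet.{u} → ZFSet.{u} → Prop,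
  ∀ g g' : Set (List ZFSet.{u}), IsRel M 2 g → IsRel M 2 g' → Good M R g → Good M R g' →
    ∀ a v v' : ZFSet.{u}, [a, v] ∈ g → [a, v'] ∈ g' → v = v'

/-- COD: every countable ordinal is coded -/
def S_COD : Prop := ∀ (M : ZFSet.{u}), Base M → ∀ δ ∈ (Om : ZFSet.{u}), ∃ R : Set (List ZFSet.{u}),
  OnW R ∧ Col M (b2 R) δ

/-- VAL: the ordinal of two relations on `V_ω` -/
def S_VAL : Prop := ∀ (M : ZFSet.{u}), Base M → ∀ Y0 Y1 : Set (List ZFSet.{u}), OnW Y0 → OnW Y1 →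
  ∃ γ ∈ (Om : ZFSet.{u}), (∀ β ∈ M, (β ∈ γ ↔ β ∈ (Om : ZFSet.{u}) ∧ Fv M (b2 Y0) (b2 Y1) β)) ∧
    ∀ X : ZFSet.{u}, (Out M (b2 Y0) (b2 Y1) X ↔ γ ∈ X)

/-- PLY: strategies as relations on `V_ω` -/
def S_PLY : Prop := ∀ (M : ZFSet.{u}), Base M → ∀ (e : Bool)
    (σ : List (V_ (ω : Ordinal.{u})) → V_ (ω : Ordinal.{u})),
  ∃ B : Set (List ZFSet.{u}), OnW B ∧ ∀ y : ℕ → V_ (ω : Ordinal.{u}), ∀ n ∈ M, ∀ v ∈ M,
    (Play M e (b2 B) (b2 (gr y)) n v ↔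
      b2 (gr (fun n => σ (List.ofFn (fun i : Fin (n + e.toNat) => y i)))) n v)

/-- JOIN: countably many relations are generated by one relation, and by the graph of one sequence -/
def S_JOIN : Prop := ∀ (M : ZFSet.{u}), Base M → ∀ B : ℕ → Set (List ZFSet.{u}), (∀ i, OnW (B i)) →
  (∃ C : Set (List ZFSet.{u}), OnW C ∧ ∀ i, ∀ a ∈ M, ∀ b ∈ M, (Dec M (b2 C) (nat i) a b ↔ b2 (B i) a b)) ∧
  (∃ y : ℕ → V_ (ω : Ordinal.{u}), ∀ i, ∀ a ∈ M, ∀ b ∈ M, (Dec M (b2 (gr y)) (nat i) a b ↔ b2 (B i) a b))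

/-- CONE: a determined game puts `X` or its complement in the measure -/
def S_CONE : Prop := ∀ (M : ZFSet.{u}), Base M → ∀ X : ZFSet.{u}, X ⊆ Om →
  Determined (fun x y : ℕ → V_ (ω : Ordinal.{u}) => Out M (b2 (gr x)) (b2 (gr y)) X) →
    InU M X ∨ InU M (Om \ X)

/-- FILT: countable intersections, and unboundedness of the members -/
def S_FILT : Prop := ∀ (M : ZFSet.{u}), Base M →
  (∀ (X : ℕ → ZFSet.{u}) (Z : ZFSet.{u}), (∀ i, InU M (X i)) → Z ⊆ Om →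
    (∀ β ∈ (Om : ZFSet.{u}), (∀ i, β ∈ X i) → β ∈ Z) → InU M Z) ∧
  (∀ X : ZFSet.{u}, InU M X → ∀ δ ∈ (Om : ZFSet.{u}), ∃ β ∈ X, δ ∈ β)

/-- SUP: one level contains all subsets of `ω₁` in `C²(ω)` -/
def S_SUP : Prop := ∃ ν : Ordinal.{u}, 0 < ν ∧ Base (J ν) ∧ ∀ X ∈ (C2 : Set ZFSet.{u}), X ⊆ Om → X ∈ J ν

/-- MEM: the measure over a level is in the next level -/
def S_MEM : Prop := ∀ ν : Ordinal.{u}, 0 < ν → Base (J ν) →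
  ∃ U ∈ J (ν + 1), ∀ X : ZFSet.{u}, X ∈ U ↔ X ∈ J ν ∧ InU (J ν) X

end Pool.Agent.K1H69.CM
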