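import Pool.Agent.K1H69.CM.JOIN

/-!
# The ordinal of two relations on `V_ω`
-/

set_option autoImplicit false

universe u

namespace Pool.Agent.K1H69.CM

open Ordinal ZFSet

namespace VAL

theorem good_congr {M : ZFSet.{u}} {R R' : ZFSet.{u} → ZFSet.{u} → Prop} {g : Set (List ZFSet.{u})}
    (h : ∀ a ∈ M, ∀ b ∈ M, (R' a b ↔ R a b)) (hg : Good M R g) : Good M R' g := by
  intro a ha v hv hav
  obtain ⟨h1, h2, h3⟩ := hg a ha v hv hav
  refine ⟨h1, fun b hb hba => h2 b hb ((h b hb a ha).1 hba), fun t ht => ?_⟩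
  rw [h3 t ht]
  constructor
  · rintro ⟨b, hb, hba, hbt⟩
    exact ⟨b, hb, (h b hb a ha).2 hba, hbt⟩
  · rintro ⟨b, hb, hba, hbt⟩
    exact ⟨b, hb, (h b hb a ha).1 hba, hbt⟩

theorem mem_Om {β : ZFSet.{u}} : β ∈ (Om : ZFSet.{u}) ↔ ∃ a < (ω_ 1 : Ordinal.{u}), a.toZFSet = β :=
  mem_toZFSet_iff

theorem exists_notMem (S : Set ZFSet.{u}) (hS : S.Countable) :
    ∃ o < (ω_ 1 : Ordinal.{u}), o.toZFSet ∉ S := by
  by_contra! hcon
  have h1 : (Set.Iio (ω_ 1 : Ordinal.{u})).Countable := by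
    have h2 : Ordinal.toZFSet '' (Set.Iio (ω_ 1 : Ordinal.{u})) ⊆ S := by
      rintro _ ⟨o, ho, rfl⟩
      exact hcon o ho
    exact Set.countable_of_injective_of_countable_image (toZFSet_injective.injOn) (hS.mono h2)
  rw [← Cardinal.le_aleph0_iff_set_countable, Cardinal.mk_Iio_ordinal, Cardinal.lift_le_aleph0,
    Ordinal.card_omega] at h1
  exact absurd h1 (not_le.2 Cardinal.aleph0_lt_aleph_one)

end VAL

open JOIN VAL in
theorem t_VAL (hF : S_FAM.{u}) (hC : S_COL.{u}) : S_VAL.{u} := by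
  intro M hM Y0 Y1 h0 h1
  obtain ⟨F, hFr, hFc, hF0, hF1⟩ := hF M hM Y0 Y1 h0 h1
  have hOmM : ∀ β ∈ (Om : ZFSet.{u}), β ∈ M := fun β hβ => hM.tr.subset_of_mem hM.Om hβ
  set S : Set ZFSet.{u} := {β | β ∈ (Om : ZFSet.{u}) ∧ Fv M (b2 Y0) (b2 Y1) β} with hS
  have hScount : S.Countable := by
    have hW : Countable (V_ (ω : Ordinal.{u})) := countable_W.to_subtype
    refine (Set.countable_iUnion (fun p : (V_ (ω : Ordinal.{u})) × (V_ (ω : Ordinal.{u})) =>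
      (?_ : ({β | ∃ g : Set (List ZFSet.{u}), IsRel M 2 g ∧ Good M (fun b a => [(p.1 : ZFSet.{u}), b, a] ∈ F) g ∧
        [(p.2 : ZFSet.{u}), β] ∈ g} : Set ZFSet.{u}).Countable))).mono ?_
    · apply Set.Subsingleton.countable
      rintro β ⟨g, hg, hG, hβ⟩ β' ⟨g', hg', hG', hβ'⟩
      exact hC M hM _ g g' hg hg' hG hG' _ _ _ hβ hβ'
    · rintro β ⟨hβ, R, hR, hgen, g, hg, hG, a, ha, haβ⟩
      obtain ⟨i, hi, hiW, hiR⟩ := hgen F hFr hFc hF0 hF1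
      have haW := (hG a ha β (hOmM β hβ) haβ).1
      exact Set.mem_iUnion.2 ⟨(⟨i, hiW⟩, ⟨a, haW⟩), g, hg, good_congr hiR hG, haβ⟩
  have hdown : ∀ β ∈ S, ∀ β' ∈ β, β' ∈ S := by
    rintro β ⟨hβ, R, hR, hgen, g, hg, hG, a, ha, haβ⟩ β' hβ'
    have hβ'Om : β' ∈ (Om : ZFSet.{u}) := (isOrdinal_toZFSet _).mem_trans hβ' hβ
    obtain ⟨b, hb, hba, hbβ⟩ := ((hG a ha β (hOmM β hβ) haβ).2.2 β' (hOmM β' hβ'Om)).1 hβ'
    exact ⟨hβ'Om, R, hR, hgen, g, hg, hG, b, hb, hbβ⟩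
  obtain ⟨o1, ho1, ho1S⟩ := exists_notMem S hScount
  have hne : {o : Ordinal.{u} | o.toZFSet ∉ S}.Nonempty := ⟨o1, ho1S⟩
  set o := sInf {o : Ordinal.{u} | o.toZFSet ∉ S} with ho
  have hoS : o.toZFSet ∉ S := csInf_mem hne
  have hlt : ∀ a < o, a.toZFSet ∈ S := by
    intro a ha
    by_contra hcon
    exact absurd (csInf_le' hcon) (not_le.2 ha)
  have hoω : o < (ω_ 1 : Ordinal.{u}) := lt_of_le_of_lt (csInf_le' ho1S) ho1
  have hSo : ∀ β, β ∈ o.toZFSet ↔ β ∈ S := by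
    intro β
    constructor
    · intro h
      obtain ⟨a, ha, rfl⟩ := mem_toZFSet_iff.1 h
      exact hlt a ha
    · intro h
      obtain ⟨a, ha, rfl⟩ := mem_Om.1 h.1
      rw [toZFSet_mem_toZFSet_iff]
      by_contra hcon
      rcases eq_or_lt_of_le (not_lt.1 hcon) with h' | h'
      · exact hoS (h' ▸ h)
      · exact hoS (hdown _ h _ (toZFSet_mem_toZFSet_iff.2 h'))
  have hγ : o.toZFSet ∈ (Om : ZFSet.{u}) := toZFSet_mem_toZFSet_iff.2 hoω
  refine ⟨o.toZFSet, hγ, fun β _ => hSo β, fun X => ?_⟩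
  constructor
  · rintro ⟨γ', hγ'M, hγ'X, hγ'⟩
    have : γ' = o.toZFSet := by
      ext z
      constructor
      · intro hz
        have hzM : z ∈ M := hM.tr.subset_of_mem hγ'M hz
        exact (hSo z).2 ((hγ' z hzM).1 hz)
      · intro hz
        have hzS := (hSo z).1 hz
        exact (hγ' z (hOmM z hzS.1)).2 hzS
    rw [← this]; exact hγ'X
  · intro h
    exact ⟨o.toZFSet, hOmM _ hγ, h, fun β _ => hSo β⟩

end Pool.Agent.K1H69.CM
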